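import Pool.Agent.Lib_MP_f98417_co.Ab

set_option autoImplicit false

/-!
Exponent three: the permutations of `A` commuting with `E` and all `F x` are `1` and `E`;
consequently `F b ^ 2 = 1` and `E ^ 2 = 1`.
-/

namespace Pool.Agent.I6.Alg

section Exp3

variable {M A : Type} [AddCommGroup M] (S : Alg M A)

theorem e3_two (h3 : ∀ z : M, z + z + z = 0) : ∀ z : M, z ≠ 0 → z + z ≠ 0 := by
  intro z hz h
  apply hz
  have := h3 z
  rwa [h, zero_add] at this

theorem e3_ne_neg (h3 : ∀ z : M, z + z + z = 0) {z : M} (hz : z ≠ 0) : z ≠ -z := by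
  intro h
  apply e3_two h3 z hz
  nth_rewrite 2 [h]
  exact add_neg_cancel z

theorem e3_dbl (h3 : ∀ z : M, z + z + z = 0) (z : M) : z + z = -z :=
  eq_neg_of_add_eq_zero_left (h3 z)

/-- `F b ^ 4 = E ^ 2` -/
theorem e3_F4 (h3 : ∀ z : M, z + z + z = 0) {b : M} (hb : b ≠ 0) (c : A) :
    S.F b (S.F b (S.F b (S.F b c))) = S.E (S.E c) := by
  have hbb := e3_two h3 b hb
  have h1 := S.F_cir hb hb hbb
  have h2 : b + b = -b := e3_dbl h3 b
  rw [h2, S.n_self_neg hb, h2] at h1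
  -- F (-b) = F b * (F (-b))⁻¹ * F b
  have h4 : ∀ c, S.F (-b) c = S.F b ((S.F (-b))⁻¹ (S.F b c)) := by
    intro c
    nth_rewrite 1 [h1]
    rfl
  -- apply at F b c'
  have h5 := h4 (S.F b c)
  rw [S.F_neg_F hb] at h5
  -- E c = F b (F(-b)⁻¹ (F b F b c)) ; let d with F (-b) d = F b F b c
  set d := (S.F (-b))⁻¹ (S.F b (S.F b c)) with hd
  have h6 : S.F (-b) d = S.F b (S.F b c) := by rw [hd]; simp
  have h7 : S.F b (S.F b (S.F b c)) = S.E d := by
    rw [← h6, S.F_F_neg hb]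
  rw [h7, ← S.E_F hb, ← h5]

theorem cen_inj {g : A → A} (hE : ∀ c, g (S.E c) = S.E (g c))
    (hF : ∀ x : M, x ≠ 0 → ∀ c, g (S.F x c) = S.F x (g c)) {p q : A} (h : g p = g q) : p = q := by
  rcases S.F_surj p q with h1 | h1 | ⟨x, hx, h1⟩
  · exact h1.symm
  · exfalso
    rw [h1, hE] at h
    exact S.E_ne _ h.symm
  · exfalso
    rw [← h1, hF x hx] at h
    exact S.F_ne _ hx h.symm

/-- elements with the same `y` -/
theorem cen_same (h2 : ∀ z : M, z ≠ 0 → z + z ≠ 0) {g : A → A}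
    (_hE : ∀ c, g (S.E c) = S.E (g c))
    (hF : ∀ x : M, x ≠ 0 → ∀ c, g (S.F x c) = S.F x (g c)) {a q : A} {y : M} (hy : y ≠ 0)
    (ha : g a = S.F y a) (hq : g q = S.F y q) :
    q = a ∨ q = S.E a ∨ q = S.F y a ∨ q = S.F (-y) a := by
  rcases S.F_surj a q with h1 | h1 | ⟨x, hx, h1⟩
  · exact Or.inl h1
  · exact Or.inr (Or.inl h1)
  · right; right
    rw [← h1, hF x hx, ha, S.F_F hx hy] at hq
    have h4 := S.F_inj _ (neg_ne_zero.2 (S.n_ne hx hy)) hy hq
    have h5 : S.n x y = -y := neg_eq_iff_eq_neg.1 h4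
    rcases S.three_L h2 hy hx h5 with h6 | h6
    · left; rw [← h1, h6]
    · right; rw [← h1, h6, neg_neg]

theorem cen_sq (h3 : ∀ z : M, z + z + z = 0) {g : A → A}
    (hE : ∀ c, g (S.E c) = S.E (g c))
    (hF : ∀ x : M, x ≠ 0 → ∀ c, g (S.F x c) = S.F x (g c)) {a : A} {y : M} (hy : y ≠ 0)
    (ha : g a = S.F y a) : g (g a) = a := by
  have h2 := e3_two h3
  have h1 : g (g (g a)) = S.F y (g (g a)) := by
    conv_lhs => rw [ha, hF y hy, hF y hy]
  rcases S.cen_same h2 hE hF hy ha h1 with h | h | h | h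
  · exact h
  · exfalso
    have h4 : S.F y (S.F y a) = S.F y (S.F (-y) a) := by
      rw [S.F_F_neg hy, ← ha, ← hF y hy, ← ha, h]
    exact e3_ne_neg h3 hy (S.F_inj a hy (neg_ne_zero.2 hy) ((S.F y).injective h4))
  · exfalso
    rw [← ha] at h
    have h4 := S.cen_inj hE hF h
    rw [ha] at h4
    exact S.F_ne a hy h4
  · exfalso
    have e1 : g (g (g a)) = S.E a := by rw [h1, h, S.F_F_neg hy]
    have e4 := S.e3_F4 h3 hy a
    have e5 : S.F y (S.F y (S.F y (S.F y a))) = g (g (g (g a))) := by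
      rw [← ha, ← hF y hy a, ← ha, ← hF y hy (g a), ← hF y hy a, ← ha, ← hF y hy (g (g a)),
        ← hF y hy (g a), ← hF y hy a, ← ha]
    rw [e5] at e4
    have e6 : S.E (S.E a) = g (g (g (g (g (g a))))) := by
      rw [e1, hE, hE, hE, e1]
    rw [e6] at e4
    have e7 := S.cen_inj hE hF (S.cen_inj hE hF (S.cen_inj hE hF (S.cen_inj hE hF e4)))
    rw [h] at e7
    exact S.F_ne a (neg_ne_zero.2 hy) e7.symm

theorem cen_FF (h3 : ∀ z : M, z + z + z = 0) {g : A → A}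
    (hE : ∀ c, g (S.E c) = S.E (g c))
    (hF : ∀ x : M, x ≠ 0 → ∀ c, g (S.F x c) = S.F x (g c)) {a : A} {y : M} (hy : y ≠ 0)
    (ha : g a = S.F y a) : S.F y (S.F y a) = a ∧ S.F (-y) a = S.E (g a) := by
  have h1 : S.F y (S.F y a) = a := by
    rw [← ha, ← hF y hy, ← ha, S.cen_sq h3 hE hF hy ha]
  refine ⟨h1, ?_⟩
  apply (S.F y).injective
  rw [S.F_F_neg hy, ← S.E_F hy, ha, h1]

theorem cen_EE (h3 : ∀ z : M, z + z + z = 0) {g : A → A}
    (hE : ∀ c, g (S.E c) = S.E (g c))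
    (hF : ∀ x : M, x ≠ 0 → ∀ c, g (S.F x c) = S.F x (g c)) {a : A} {y : M} (hy : y ≠ 0)
    (ha : g a = S.F y a) : S.E (S.E a) = a := by
  have h2 := e3_two h3
  have h1 : g (S.E (S.E a)) = S.F y (S.E (S.E a)) := by
    rw [hE, hE, ha, S.E_F hy, S.E_F hy]
  have hgg := S.cen_sq h3 hE hF hy ha
  have hFF := S.cen_FF h3 hE hF hy ha
  rcases S.cen_same h2 hE hF hy ha h1 with h | h | h | h
  · exact h
  · exact absurd (S.E.injective h) (S.E_ne a)
  · have hny := neg_ne_zero.2 hy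
    have e1 : S.E (S.E (S.E (S.E a))) = a := by
      rw [h, S.E_F hy, S.E_F hy, h, hFF.1]
    have e2 : S.F (-y) a = S.E (S.E (S.E a)) := by rw [hFF.2, ha, h]
    have e3 : ∀ c, S.F (-y) (S.E c) = S.E (S.F (-y) c) := fun c => (S.E_F hny c).symm
    have e4 := S.e3_F4 h3 hny a
    have e5 : S.F (-y) (S.F (-y) (S.F (-y) (S.F (-y) a))) = a := by
      simp only [e2, e3, e1]
    rw [e5] at e4
    exact e4.symm
  · exfalso
    have e1 : S.E (g a) = a := by
      have : S.F y (S.E (S.E a)) = S.E a := by rw [h, S.F_F_neg hy]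
      rw [← S.E_F hy, ← S.E_F hy, ← ha] at this
      exact S.E.injective this
    have e2 : g a = S.E a := by
      nth_rewrite 1 [← e1]
      rw [hE, hgg]
    rw [ha] at e2
    exact S.F_ne_E a hy e2

/-- the value of `y` at `F x a` -/
theorem cen_F {g : A → A}
    (hF : ∀ x : M, x ≠ 0 → ∀ c, g (S.F x c) = S.F x (g c)) {a : A} {y x : M} (hy : y ≠ 0)
    (ha : g a = S.F y a) (hx : x ≠ 0) : g (S.F x a) = S.F (-(S.n x y)) (S.F x a) := by
  rw [hF x hx, ha, S.F_F hx hy]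

theorem cen_P (h3 : ∀ z : M, z + z + z = 0) {g : A → A}
    (hE : ∀ c, g (S.E c) = S.E (g c))
    (hF : ∀ x : M, x ≠ 0 → ∀ c, g (S.F x c) = S.F x (g c)) {a : A} {y : M} (hy : y ≠ 0)
    (ha : g a = S.F y a) {t s : M} (ht : t ≠ 0) (hs : s ≠ 0)
    (hst : S.F s a = g (S.F t a)) : S.F (-s) a = g (S.F (-t) a) := by
  have h2 := e3_two h3
  have hnt := neg_ne_zero.2 ht
  have hns := neg_ne_zero.2 hs
  have hz : -(S.n t y) ≠ 0 := neg_ne_zero.2 (S.n_ne ht hy)
  have hr := S.cen_F hF hy ha ht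
  set r := S.F t a with hrd
  have hgg : g (g r) = r := S.cen_sq h3 hE hF hz hr
  have hEE : S.E (S.E r) = r := S.cen_EE h3 hE hF hz hr
  -- the value at F (-t) a
  have e1 : g (S.F (-t) a) = S.F (-(S.n t y)) (S.F (-t) a) := by
    rw [S.cen_F hF hy ha hnt, S.n_neg_eq ht hy]
  -- n s y = n t y
  have e2 : -(S.n s y) = -(S.n t y) := by
    apply S.F_inj (S.F s a) (neg_ne_zero.2 (S.n_ne hs hy)) hz
    rw [← S.cen_F hF hy ha hs, hst, ← hF _ hz, ← hr]
  have e3 : g (S.F (-s) a) = S.F (-(S.n t y)) (S.F (-s) a) := by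
    rw [S.cen_F hF hy ha hns, S.n_neg_eq hs hy, e2]
  have hFF := (S.cen_FF h3 hE hF hz hr).2
  have c1 := S.cen_same h2 hE hF hz hr e1
  have c2 := S.cen_same h2 hE hF hz hr e3
  rw [← hr, hFF] at c1 c2
  by_cases hst' : s = -t
  · subst hst'
    rw [neg_neg, hst, hgg]
  have u1 : S.F (-t) a ≠ r := fun h => e3_ne_neg h3 ht (S.F_inj a hnt ht h).symm
  have u2 : S.F (-t) a ≠ g r := by
    intro h
    rw [← hst] at h
    exact hst' (S.F_inj a hs hnt h.symm)
  have w2 : S.F (-s) a ≠ g r := by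
    intro h
    rw [← hst] at h
    exact e3_ne_neg h3 hs (S.F_inj a hns hs h).symm
  have w1 : S.F (-s) a ≠ r := by
    intro h
    apply hst'
    have := S.F_inj a hns ht h
    rw [← this, neg_neg]
  have uw : S.F (-s) a ≠ S.F (-t) a := by
    intro h
    have h5 : s = t := neg_injective (S.F_inj a hns hnt h)
    have h6 : g r = r := by rw [← hst, h5]
    rw [hr] at h6
    exact S.F_ne r hz h6
  rcases c1 with h | h | h | h
  · exact absurd h u1
  · rcases c2 with k | k | k | k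
    · exact absurd k w1
    · exact absurd (k.trans h.symm) uw
    · exact absurd k w2
    · rw [k, h, hE]
  · exact absurd h u2
  · rcases c2 with k | k | k | k
    · exact absurd k w1
    · rw [k, h, hE, hgg]
    · exact absurd k w2
    · exact absurd (k.trans h.symm) uw

theorem cen_Q (h3 : ∀ z : M, z + z + z = 0) {g : A → A}
    (hE : ∀ c, g (S.E c) = S.E (g c))
    (hF : ∀ x : M, x ≠ 0 → ∀ c, g (S.F x c) = S.F x (g c)) {a : A} {y : M} (hy : y ≠ 0)
    (ha : g a = S.F y a) {t s : M} (ht : t ≠ 0) (hs : s ≠ 0)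
    (hst : S.F s a = g (S.F t a)) : s = -t := by
  by_contra hne
  have h2 := e3_two h3
  have hz : -(S.n t y) ≠ 0 := neg_ne_zero.2 (S.n_ne ht hy)
  have hr := S.cen_F hF hy ha ht
  have hgg : g (g (S.F t a)) = S.F t a := S.cen_sq h3 hE hF hz hr
  have hts : t ≠ s := by
    intro h
    rw [← h] at hst
    rw [hr] at hst
    exact S.F_ne _ hz hst.symm
  have hx : t - s ≠ 0 := sub_ne_zero.2 hts
  have hnx : s - t ≠ 0 := sub_ne_zero.2 (Ne.symm hts)
  have i1 : t - s + s = t := by abel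
  have i2 : s - t + t = s := by abel
  have c1 := S.F_cir hx hs (by rw [i1]; exact ht)
  have c2 := S.F_cir hnx ht (by rw [i2]; exact hs)
  have p1 := S.cir_ne hx hs (by rw [i1]; exact ht)
  have p2 := S.cir_ne hnx ht (by rw [i2]; exact hs)
  rw [i1] at c1 p1
  rw [i2] at c2 p2
  have d1 : S.F (t - s + S.n (t - s) t) a = g (S.F (t - s) a) := by
    rw [c1]
    show S.F (t - s) ((S.F t).symm (S.F s a)) = _
    rw [hst, hF t ht, Equiv.symm_apply_apply, hF _ hx]
  have d2 : S.F (s - t + S.n (s - t) s) a = g (S.F (s - t) a) := by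
    rw [c2]
    show S.F (s - t) ((S.F s).symm (S.F t a)) = _
    rw [← hgg, ← hst, hF s hs, Equiv.symm_apply_apply, hF _ hnx]
  have d3 := S.cen_P h3 hE hF hy ha hx p1 d1
  rw [neg_sub, ← d2] at d3
  have d4 := S.F_inj a (neg_ne_zero.2 p1) p2 d3
  have d5 : s - t = -(t - s) := by abel
  rw [d5, S.n_neg_eq hx hs] at d4
  have d6 : S.n (t - s) s = -(S.n (t - s) t) := by
    have := congrArg (fun z => z + (t - s)) d4
    beta_reduce at this
    have e1 : -(t - s + S.n (t - s) t) + (t - s) = -(S.n (t - s) t) := by abel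
    have e2 : -(t - s) + S.n (t - s) s + (t - s) = S.n (t - s) s := by abel
    rw [e1, e2] at this
    exact this.symm
  rw [← S.n_neg hx ht] at d6
  exact hne (S.n_inj hx hs (neg_ne_zero.2 ht) d6)

/-- Lemma 1 -/
theorem e3_central (h3 : ∀ z : M, z + z + z = 0)
    (hbig : ∀ y : M, ∃ t : M, t ≠ 0 ∧ t ≠ y ∧ t ≠ -y) {g : A → A}
    (hE : ∀ c, g (S.E c) = S.E (g c))
    (hF : ∀ x : M, x ≠ 0 → ∀ c, g (S.F x c) = S.F x (g c)) (a : A) :
    g a = a ∨ g a = S.E a := by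
  rcases S.F_surj a (g a) with h | h | ⟨y, hy, ha⟩
  · exact Or.inl h
  · exact Or.inr h
  exfalso
  have ha := ha.symm
  obtain ⟨t, ht, hty, hty'⟩ := hbig y
  have hny := neg_ne_zero.2 hy
  have hz : -(S.n t y) ≠ 0 := neg_ne_zero.2 (S.n_ne ht hy)
  have hr := S.cen_F hF hy ha ht
  have hgg : g (g (S.F t a)) = S.F t a := S.cen_sq h3 hE hF hz hr
  have hEE : S.E (S.E (g (S.F t a))) = g (S.F t a) := by
    rw [← hE, ← hE, S.cen_EE h3 hE hF hz hr]
  have hFF := S.cen_FF h3 hE hF hy ha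
  have n1 : g (S.F t a) ≠ a := by
    intro h
    apply hty
    apply S.F_inj a ht hy
    rw [← hgg, h, ha]
  have n2 : g (S.F t a) ≠ S.E a := by
    intro h
    apply hty'
    apply S.F_inj a ht hny
    rw [← hgg, h, hE, hFF.2]
  -- s
  obtain ⟨s, hs, hsF⟩ : ∃ s : M, s ≠ 0 ∧ S.F s a = g (S.F t a) := by
    rcases S.F_surj a (g (S.F t a)) with h | h | h
    · exact absurd h n1
    · exact absurd h n2
    · exact h
  obtain ⟨s', hs', hsF'⟩ : ∃ s : M, s ≠ 0 ∧ S.F s a = S.E (g (S.F t a)) := by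
    rcases S.F_surj a (S.E (g (S.F t a))) with h | h | h
    · exfalso
      apply n2
      rw [← hEE, h]
    · exact absurd (S.E.injective h) n1
    · exact h
  have k1 := S.cen_Q h3 hE hF hy ha ht hs hsF
  have k2 := S.cen_Q h3 (g := fun c => S.E (g c)) (y := -y) (fun c => by simp only [hE])
    (fun x hx c => by simp only [hF x hx, S.E_F hx]) hny (hFF.2.symm) ht hs' hsF'
  rw [k1, ← k2, hsF'] at hsF
  exact S.E_ne _ hsF

variable {S} in
theorem e3_FF (h3 : ∀ z : M, z + z + z = 0)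
    (hbig : ∀ y : M, ∃ t : M, t ≠ 0 ∧ t ≠ y ∧ t ≠ -y) {b : M} (hb : b ≠ 0) (c : A) :
    S.F b (S.F b c) = c := by
  rcases S.e3_central h3 hbig (g := fun c => S.F b (S.F b c))
    (fun c => by simp only [S.E_F hb])
    (fun x hx c => by
      rw [S.F_F hb hx, S.F_F hb (neg_ne_zero.2 (S.n_ne hb hx)), S.n_neg hb (S.n_ne hb hx),
        S.n_n hb hx, neg_neg]) c with h | h
  · exact h
  · exfalso
    rw [← S.F_F_neg hb] at h
    exact e3_ne_neg h3 hb (S.F_inj c hb (neg_ne_zero.2 hb) ((S.F b).injective h))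

variable {S} in
theorem e3_EE (h3 : ∀ z : M, z + z + z = 0)
    (hbig : ∀ y : M, ∃ t : M, t ≠ 0 ∧ t ≠ y ∧ t ≠ -y) (c : A) :
    S.E (S.E c) = c := by
  rcases S.e3_central h3 hbig (g := fun c => S.E (S.E c)) (fun c => rfl)
    (fun x hx c => by simp only [S.E_F hx]) c with h | h
  · exact h
  · exact absurd (S.E.injective h) (S.E_ne c)

variable {S} in
theorem e3_Fneg (h3 : ∀ z : M, z + z + z = 0)
    (hbig : ∀ y : M, ∃ t : M, t ≠ 0 ∧ t ≠ y ∧ t ≠ -y) {b : M} (hb : b ≠ 0) (c : A) :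
    S.F (-b) c = S.E (S.F b c) := by
  rw [← S.F_neg_F hb, e3_FF h3 hbig hb]

end Exp3

end Pool.Agent.I6.Alg
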