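import Pool.Agent.Lib_MP_f98417_coJ.Cent

set_option autoImplicit false

namespace Pool.Agent.I6.Alg

section Centroid

variable {M A : Type} [AddCommGroup M] (S : Alg M A)

include S in
/-- an additive automorphism inverted by the maps `n b` is `±1` -/
theorem centroid_pt [Nonempty A] (h3 : ∀ z : M, z + z + z = 0)
    (hbig : ∀ y : M, ∃ t : M, t ≠ 0 ∧ t ≠ y ∧ t ≠ -y) (lam : M ≃+ M)
    (hl : ∀ b z : M, b ≠ 0 → z ≠ 0 → S.n b (lam z) = lam.symm (S.n b z)) {b : M} (hb : b ≠ 0) :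
    lam b = b ∨ lam b = -b := by
  by_contra hne
  push Not at hne
  obtain ⟨hne1, hne2⟩ := hne
  have l0 : ∀ {x : M}, x ≠ 0 → lam x ≠ 0 := fun hx h => hx (lam.map_eq_zero_iff.1 h)
  have hn1 : ∀ {x w : M}, x ≠ 0 → w ≠ 0 → S.n (lam x) (lam w) = lam (S.n x w) := by
    intro x w hx hw
    by_cases hwx : w = x
    · subst hwx
      rw [S.n_self hx, S.n_self (l0 hx), map_neg]
    · have hy : w - x ≠ 0 := sub_ne_zero.2 hwx
      have i1 : x + (w - x) = w := by abel
      have hxy : x + (w - x) ≠ 0 := by rw [i1]; exact hw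
      have c1 := S.n_cir hb hx hy hxy
      have i2 : lam x + lam (w - x) = lam w := by rw [← map_add, i1]
      have c2 := S.n_cir hb (l0 hx) (l0 hy) (by rw [i2]; exact l0 hw)
      have p1 := S.cir_ne hx hy hxy
      have p2 := S.cir_ne (l0 hx) (l0 hy) (by rw [i2]; exact l0 hw)
      rw [i1] at c1 p1
      rw [i2, hl b x hb hx, hl b _ hb hy, ← map_add, ← c1, ← hl b _ hb p1] at c2
      rw [i2] at p2
      have c3 := S.n_inj hb p2 (l0 p1) c2
      rw [map_add] at c3
      exact add_left_cancel c3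
  have hn2 : ∀ {x z : M}, x ≠ 0 → z ≠ 0 → S.n (lam x) (S.n x z) = lam (lam z) := by
    intro x z hx hz
    have h1 : S.n x z = lam (S.n x (lam z)) := by rw [hl x z hx hz, AddEquiv.apply_symm_apply]
    rw [h1, hn1 hx (S.n_ne hx (l0 hz)), S.n_n hx (l0 hz)]
  have hT : ∀ {x z : M}, x ≠ 0 → z ≠ 0 → ∀ c, S.F (lam x) (S.F x (S.F z c)) =
      S.F (lam (lam z)) (S.F (lam x) (S.F x c)) := by
    intro x z hx hz c
    have h1 := S.n_ne hx hz
    rw [S.F_F hx hz, S.F_F (l0 hx) (neg_ne_zero.2 h1), S.n_neg (l0 hx) h1, neg_neg, hn2 hx hz]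
  have FF : ∀ {x : M}, x ≠ 0 → ∀ c, S.F x (S.F x c) = c := fun hx c => S.e3_FF h3 hbig hx c
  obtain ⟨a⟩ := ‹Nonempty A›
  have huniq : ∀ {x : M}, x ≠ 0 → S.F (lam x) (S.F x a) = S.F (lam b) (S.F b a) ∨
      S.F (lam x) (S.F x a) = S.E (S.F (lam b) (S.F b a)) := by
    intro x hx
    have h1 := S.e3_central h3 hbig
      (g := fun c => S.F b (S.F (lam b) (S.F (lam x) (S.F x c))))
      (fun c => by simp only [S.E_F hb, S.E_F (l0 hb), S.E_F (l0 hx), S.E_F hx])
      (fun z hz c => by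
        have h5 : S.F b (S.F (lam b) (S.F (lam (lam z)) (S.F (lam x) (S.F x c)))) =
            S.F z (S.F b (S.F (lam b) (S.F (lam x) (S.F x c)))) := by
          apply (S.F b).injective
          apply (S.F (lam b)).injective
          rw [FF hb, FF (l0 hb), hT hb hz, FF hb, FF (l0 hb)]
        rw [hT hx hz, h5]) a
    rcases h1 with h | h
    · left
      have h2 := congrArg (fun c => S.F (lam b) (S.F b c)) h
      beta_reduce at h2
      rw [FF hb, FF (l0 hb)] at h2
      exact h2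
    · right
      have h2 := congrArg (fun c => S.F (lam b) (S.F b c)) h
      beta_reduce at h2
      rw [FF hb, FF (l0 hb), ← S.E_F hb, ← S.E_F (l0 hb)] at h2
      exact h2
  rcases S.F_surj a (S.F (lam b) (S.F b a)) with h | h | ⟨y, hy, h⟩
  · have h1 : S.F b a = S.F (lam b) a := by
      rw [← FF (l0 hb) (S.F b a), h]
    exact hne1 (S.F_inj a hb (l0 hb) h1).symm
  · have h1 : S.F b a = S.F (-(lam b)) a := by
      rw [← FF (l0 hb) (S.F b a), h, ← S.E_F (l0 hb), S.e3_Fneg h3 hbig (l0 hb)]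
    apply hne2
    rw [S.F_inj a hb (neg_ne_zero.2 (l0 hb)) h1, neg_neg]
    exact congrArg lam (S.F_inj a hb (neg_ne_zero.2 (l0 hb)) h1).symm
  · obtain ⟨x, rfl⟩ := lam.surjective y
    have hx : x ≠ 0 := by
      rintro rfl
      exact hy (map_zero lam)
    rcases huniq hx with h1 | h1
    · rw [← h] at h1
      exact S.F_ne a hx ((S.F (lam x)).injective h1)
    · rw [← h, S.E_F hy] at h1
      exact S.F_ne_E a hx ((S.F (lam x)).injective h1)

end Centroid

end Pool.Agent.I6.Alg
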