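import Pool.Agent.Lib_MP_f98417_co.TypeI6

set_option autoImplicit false

/-!
Definitions for the second hand-in on MP_f98417_co.
-/

namespace Pool.Agent.I6

open Configuration

/-- The translation `x ↦ x + a` of `V ∪ {∞}` (`∞` is `none`), fixing `∞`. -/
def translate {V : Type} [Add V] (a : V) : Option V → Option V := Option.map (fun x => x + a)

open Classical in
/-- The extension of a map `inv` of `V` to `V ∪ {∞}` (`∞` is `none`), swapping `0` and `∞`. -/
noncomputable def extInv {V : Type} [Zero V] (inv : V → V) : Option V → Option V
  | none => some 0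
  | some x => if x = 0 then none else some (inv x)

variable {P L : Type} [Membership P L] [ProjectivePlane P L]

/-- `pt` is an isomorphism from the Moufang set `M(V, inv)` to the Moufang set of `Γ` on the
points of `W` other than `v`: `pt` is a bijection from `V ∪ {∞}` onto these points, the elements
of the root group `Γ(∞, σ ∞)` act as translations of `V`, and the elements of the root group
`Γ(0, σ 0)` act as the conjugates of translations by the inversion. -/
structure IsMoufangIso (Γ : Subgroup (Equiv.Perm P × Equiv.Perm L)) (v : P) (W : L) (σ : P → L)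
    {V : Type} [AddCommGroup V] (inv : V → V) (pt : Option V → P) : Prop where
  inj : Function.Injective pt
  range : ∀ x : P, (x ∈ W ∧ x ≠ v) ↔ ∃ j, pt j = x
  root_inf : ∀ γ ∈ persp Γ (pt none) (σ (pt none)), ∃ a : V, ∀ j : Option V,
    γ.1.1 (pt j) = pt (translate a j)
  root_zero : ∀ γ ∈ persp Γ (pt (some 0)) (σ (pt (some 0))), ∃ a : V, ∀ j : Option V,
    γ.1.1 (pt (extInv inv j)) = pt (extInv inv (translate a j))

/-- A vector space `V` over `K` with an inversion and maps `U x : V → V` satisfying the
following identities, all of which hold in every (quadratic) Jordan division algebra over `K`,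
`U` being the quadratic operators and `hua` Hua's identity. -/
structure HuaSystem (K V : Type) [Field K] [AddCommGroup V] [Module K V] where
  inv : V → V
  U : V → V → V
  inv_ne : ∀ x, x ≠ 0 → inv x ≠ 0
  inv_inv : ∀ x, x ≠ 0 → inv (inv x) = x
  inv_smul : ∀ (c : K) (x : V), c ≠ 0 → x ≠ 0 → inv (c • x) = c⁻¹ • inv x
  U_smul : ∀ (x : V) (c : K) (y : V), U x (c • y) = c • U x y
  U_inv : ∀ x, x ≠ 0 → U x (inv x) = x
  hua : ∀ x y, x ≠ 0 → y ≠ 0 → x ≠ y → inv (inv (y - x) + inv x) = x - U x (inv y)

end Pool.Agent.I6
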