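import Pool.Agent.Lib_MP_f98417_co.SysAlg
import Pool.Agent.Lib_MP_f98417_coJ.MoufangDefs

set_option autoImplicit false

namespace Pool.Agent.I6

theorem extInv_zero {V : Type} [Zero V] (inv : V → V) : extInv inv (some 0) = none := by
  simp [extInv]

theorem extInv_some {V : Type} [Zero V] (inv : V → V) {x : V} (hx : x ≠ 0) :
    extInv inv (some x) = some (inv x) := by
  simp [extInv, hx]

theorem extInv_none {V : Type} [Zero V] (inv : V → V) : extInv inv none = some 0 := rfl

theorem translate_some {V : Type} [Add V] (a x : V) : translate a (some x) = some (x + a) := rfl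

/-- coordinates of a system -/
structure SC {G Q X : Type} [Group G] [MulAction G Q] [MulAction G X] (S : Sys G Q X)
    {V : Type} [AddCommGroup V] (inv : V → V) (pt : Option V → X) : Prop where
  inj : Function.Injective pt
  surj : Function.Surjective pt
  inf : ∀ γ ∈ S.U (pt none), ∃ a : V, ∀ j, γ • pt j = pt (translate a j)
  zero : ∀ γ ∈ S.U (pt (some 0)), ∃ a : V, ∀ j,
    γ • pt (extInv inv j) = pt (extInv inv (translate a j))

namespace SC

variable {G Q X : Type} [Group G] [MulAction G Q] [MulAction G X] {S : Sys G Q X}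
  {V : Type} [AddCommGroup V] {inv : V → V} {pt : Option V → X} (C : SC S inv pt)

include C

theorem how : pt (some 0) ≠ pt none := fun h => by
  have := C.inj h
  exact absurd this (by simp)

noncomputable def co (z : S.Rt (pt none)) : V := Classical.choose (C.inf (S.g z) (S.g_mem z))

theorem co_spec (z : S.Rt (pt none)) (j : Option V) :
    S.g z • pt j = pt (translate (C.co z) j) :=
  Classical.choose_spec (C.inf (S.g z) (S.g_mem z)) j

theorem co_some (z : S.Rt (pt none)) (x : V) : S.g z • pt (some x) = pt (some (x + C.co z)) :=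
  C.co_spec z (some x)

theorem some_inj {x y : V} (h : pt (some x) = pt (some y)) : x = y :=
  Option.some.inj (C.inj h)

theorem co_add (z z' : S.Rt (pt none)) : C.co (z + z') = C.co z + C.co z' := by
  have h1 := C.co_some (z + z') 0
  rw [S.g_add, mul_smul, C.co_some, C.co_some, zero_add, zero_add] at h1
  rw [← C.some_inj h1, add_comm]

theorem co_inj {z : S.Rt (pt none)} (h : C.co z = 0) : z = 0 := by
  have h1 := C.co_some z 0
  rw [h, add_zero] at h1
  have h2 := S.U_free _ _ (S.g_mem z) _ C.how h1
  exact S.g_inj (by rw [h2, S.g_zero])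

theorem co_surj (a : V) : ∃ z : S.Rt (pt none), C.co z = a := by
  obtain ⟨u, hu, huo⟩ := S.U_trans (pt none) (pt (some 0)) (pt (some a)) C.how
    (fun h => by
      have := C.inj h
      exact absurd this (by simp))
  refine ⟨S.pack u hu, ?_⟩
  have h1 := C.co_some (S.pack u hu) 0
  rw [S.g_pack, huo, zero_add] at h1
  exact (C.some_inj h1).symm

/-- the isomorphism with `V` -/
noncomputable def iso : S.Rt (pt none) →+ V where
  toFun := C.co
  map_zero' := by
    have h := C.co_add 0 0
    rw [add_zero] at h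
    exact left_eq_add.1 h
  map_add' := C.co_add

theorem co_neg (z : S.Rt (pt none)) : C.co (-z) = -C.co z := map_neg C.iso z

theorem co_ne {z : S.Rt (pt none)} (h : z ≠ 0) : C.co z ≠ 0 := fun h1 => h (C.co_inj h1)

theorem co_na (hne : ∀ x, x ≠ 0 → inv x ≠ 0) (hii : ∀ x, x ≠ 0 → inv (inv x) = x)
    {b z : S.Rt (pt none)} (hb : b ≠ 0) (hz : z ≠ 0) (hbz : b ≠ z) :
    C.co (S.na (pt (some 0)) b z) = inv (inv (C.co z - C.co b) + inv (C.co b)) - C.co b := by
  have how := C.how
  have hbm := S.g_mem b
  have hb1 := S.g_ne hb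
  have hzm := S.g_mem z
  have hz1 := S.g_ne hz
  set β := C.co b with hβ
  set ζ := C.co z with hζ
  have hβ0 : β ≠ 0 := C.co_ne hb
  have hβζ : ζ - β ≠ 0 := by
    intro h
    apply hbz
    have h1 : C.iso (z - b) = 0 := by
      rw [map_sub]; exact h
    exact (sub_eq_zero.1 (C.co_inj h1)).symm
  have hbi : ∀ x : V, (S.g b)⁻¹ • pt (some x) = pt (some (x - β)) := by
    intro x
    have := C.co_some (-b) x
    rw [S.g_neg, C.co_neg, ← sub_eq_add_neg] at this
    exact this
  obtain ⟨hv, hvw⟩ := S.vv_spec how hbm hb1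
  obtain ⟨a, ha⟩ := C.zero _ hv
  have h1 := ha (some 0)
  rw [extInv_zero, translate_some, zero_add, hvw, C.co_some, zero_add] at h1
  have ha0 : a ≠ 0 := by
    rintro rfl
    rw [extInv_zero] at h1
    exact absurd (C.inj h1) (by simp)
  rw [extInv_some inv ha0] at h1
  have h2 : β = inv a := C.some_inj h1
  have ha' : a = inv β := by rw [h2, hii a ha0]
  -- compute
  have hκ : inv (ζ - β) ≠ 0 := hne _ hβζ
  have e1 : pt (some (ζ - β)) = pt (extInv inv (some (inv (ζ - β)))) := by
    rw [extInv_some inv hκ, hii _ hβζ]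
  have e2 : S.vv (pt (some 0)) (pt none) (S.g b) • pt (some (ζ - β))
      = pt (extInv inv (some (inv (ζ - β) + a))) := by
    rw [e1, ha, translate_some]
  have e3 : S.nn (pt (some 0)) (pt none) (S.g b) • (S.g z • pt (some 0))
      = (S.g b)⁻¹ • pt (extInv inv (some (inv (ζ - β) + a))) := by
    unfold Sys.nn
    rw [C.co_some, zero_add, mul_smul, mul_smul, hbi, e2]
  have e4 : inv (ζ - β) + a ≠ 0 := by
    intro h
    rw [h, extInv_zero, S.U_fix' _ _ ((S.U _).inv_mem hbm)] at e3
    exact S.nn_zo_ne how hbm hb1 hzm hz1 e3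
  rw [extInv_some inv e4, hbi, ← S.nact_o how hbm hb1 hzm hz1, ← S.g_na, C.co_some, zero_add] at e3
  rw [C.some_inj e3, ha']

end SC

end Pool.Agent.I6
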