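import Mathlib

set_option autoImplicit false

/-!
The ring theoretic part: groups of units generated by self-adjoint elements.
-/

namespace Pool.Agent.I6

/-- Data in the unit group of a ring with involution; see `HD.false`. -/
structure HD (R : Type) [Ring R] [StarRing R] where
  three : ∀ x : R, x + x + x = 0
  nontriv : (1 : R) ≠ 0
  red : ∀ x : R, x * x = 0 → x = 0
  G : Subgroup Rˣ
  L : Subgroup Rˣ
  w : Rˣ
  hw : w ∈ G
  LG : L ≤ G
  hJ : ∀ x : R, star x = x → x ≠ 0 → ∃ u ∈ G, (u : R) = x
  P1 : ∀ g ∈ G, w⁻¹ * g ∈ L ∨ ∃ j : Rˣ, star j = j ∧ j⁻¹ * g ∈ L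
  P2 : ∀ j k : Rˣ, star j = j → star k = k → k⁻¹ * j ∈ L → j = k ∨ j = -k
  P3 : ∀ j : Rˣ, star j = j → w⁻¹ * j ∉ L
  P4 : w⁻¹ * star w ∈ L
  P5 : (-1 : Rˣ) ∈ L
  big : ∀ s : R, star s = s → ∃ x : R, star x = x ∧ x ≠ 0 ∧ x ≠ s ∧ x ≠ -s

namespace HD

variable {R : Type} [Ring R] [StarRing R] (D : HD R)

include D

theorem two (x : R) : x + x = -x := eq_neg_of_add_eq_zero_left (D.three x)

theorem ne_neg_one : (1 : R) ≠ -1 := by
  intro h
  apply D.nontriv
  have h1 : (1 : R) + 1 = 0 := by
    nth_rewrite 2 [h]
    exact add_neg_cancel 1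
  have h2 := D.three 1
  rwa [h1, zero_add] at h2

theorem idem_central {e : R} (he : e * e = e) (r : R) : e * r = r * e := by
  have h1 : e * r - e * r * e = 0 := by
    apply D.red
    have : (e * r - e * r * e) * (e * r - e * r * e)
        = e * r * e * r - e * r * (e * e) * r - e * r * e * r * e + e * r * (e * e) * r * e := by
      noncomm_ring
    rw [this, he]
    noncomm_ring
  have h2 : r * e - e * r * e = 0 := by
    apply D.red
    have : (r * e - e * r * e) * (r * e - e * r * e)
        = r * e * r * e - r * (e * e) * r * e - e * r * e * r * e + e * r * (e * e) * r * e := by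
      noncomm_ring
    rw [this, he]
    noncomm_ring
  rw [sub_eq_zero.1 h1, sub_eq_zero.1 h2]

theorem inv_central {t : R} (ht : t * t = 1) (r : R) : t * r = r * t := by
  have he : (-(1 + t)) * (-(1 + t)) = -(1 + t) := by
    have h1 : (-(1 + t)) * (-(1 + t)) = 1 + (t + t) + t * t := by noncomm_ring
    rw [h1, ht, D.two t]
    have h2 : (1 : R) + 1 = -1 := D.two 1
    have h3 : (1 : R) + -t + 1 = (1 + 1) - t := by abel
    rw [h3, h2]; abel
  have h1 := D.idem_central he r
  have h2 : -(1 + t) * r = -r - t * r := by noncomm_ring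
  have h3 : r * -(1 + t) = -r - r * t := by noncomm_ring
  rw [h2, h3] at h1
  exact sub_right_injective h1

/-- a self-adjoint nonzero element as a self-adjoint unit in `G` -/
theorem exists_unit {x : R} (hx : star x = x) (h0 : x ≠ 0) :
    ∃ u : Rˣ, u ∈ D.G ∧ star u = u ∧ (u : R) = x := by
  obtain ⟨u, hu, hux⟩ := D.hJ x hx h0
  refine ⟨u, hu, ?_, hux⟩
  apply Units.ext
  rw [Units.coe_star, hux, hx]

theorem unit_ne (u : Rˣ) : (u : R) ≠ 0 := by
  intro h
  apply D.nontriv
  have := u.mul_inv
  rw [h, zero_mul] at this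
  exact this.symm

theorem mem_G {j : Rˣ} (hj : star j = j) : j ∈ D.G := by
  obtain ⟨u, hu, hux⟩ := D.hJ (j : R) (by rw [← Units.coe_star, hj]) (D.unit_ne j)
  rwa [Units.ext hux] at hu

/-- Step 1 -/
theorem step1 {i : Rˣ} (hi : i ∈ D.L) (hii : (i : R) * i = -1) :
    star (i : R) = -i ∧ ∀ x : R, star x = x → (i : R) * x = x * i := by
  have hss : star (i : R) * star (i : R) = -1 := by
    rw [← star_mul, hii, star_neg, star_one]
  have key : ∀ x : R, star x = x → x = star (i : R) * x * i := by
    intro x hx
    by_contra hne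
    have hq0 : x - star (i : R) * x * i ≠ 0 := sub_ne_zero.2 hne
    have hq : star (x - star (i : R) * x * i) = x - star (i : R) * x * i := by
      simp only [star_sub, star_mul, star_star, hx, mul_assoc]
    obtain ⟨q, -, hqs, hqx⟩ := D.exists_unit hq hq0
    have hqi : star (q * i) = q * i := by
      apply Units.ext
      rw [Units.coe_star, Units.val_mul, star_mul, hqx, hq]
      have e1 : star (i : R) * (x - star (i : R) * x * i)
          = star (i : R) * x - (star (i : R) * star (i : R)) * x * i := by noncomm_ring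
      have e2 : (x - star (i : R) * x * i) * (i : R)
          = x * i - star (i : R) * x * (i * i) := by noncomm_ring
      rw [e1, e2, hss, hii]
      noncomm_ring
    rcases D.P2 (q * i) q hqi hqs (by rw [inv_mul_cancel_left]; exact hi) with h | h
    · have h1 : i = 1 := by
        have := congrArg (fun t => q⁻¹ * t) h
        simpa using this
      rw [h1] at hii
      apply D.ne_neg_one
      simpa using hii
    · have h1 : i = -1 := by
        have := congrArg (fun t => q⁻¹ * t) h
        simpa using this
      rw [h1] at hii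
      apply D.ne_neg_one
      simpa using hii
  have h1 : star (i : R) * i = 1 := by
    have := key 1 (star_one _)
    rw [mul_one] at this
    exact this.symm
  have h2 : star (i : R) = -i := by
    have h3 : star (i : R) * i * i = i := by rw [h1, one_mul]
    rw [mul_assoc, hii, mul_neg, mul_one] at h3
    exact neg_eq_iff_eq_neg.1 h3
  refine ⟨h2, fun x hx => ?_⟩
  have h3 := key x hx
  rw [h2] at h3
  have h4 : (i : R) * x = i * (-i * x * i) := by rw [← h3]
  have h5 : (i : R) * (-i * x * i) = -((i : R) * i) * x * i := by noncomm_ring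
  rw [h4, h5, hii]
  noncomm_ring

/-- `c = w⁻¹ w^*` -/
def c : Rˣ := D.w⁻¹ * star D.w

theorem star_w : star D.w = D.w * D.c := by
  unfold c; group

theorem star_c : star D.c * D.w = D.w * D.c⁻¹ := by
  unfold c
  rw [star_mul, star_star, star_inv]
  group

theorem star_c_inv : (star D.c)⁻¹ * D.w = D.w * D.c := by
  have h := D.star_c
  have h1 : D.w = (star D.c)⁻¹ * (D.w * D.c⁻¹) := by rw [← h]; group
  nth_rewrite 2 [h1]
  group

/-- Step 2 -/
theorem c_ne_one : D.c ≠ 1 := by
  intro h
  have h1 : star D.w = D.w := by rw [D.star_w, h, mul_one]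
  apply D.P3 D.w h1
  rw [inv_mul_cancel]
  exact D.L.one_mem

theorem exists_s (h : (D.c : R) ≠ -1) : ∃ s e : Rˣ, s ∈ D.G ∧ star s = s ∧ (e : R) = 1 + D.c ∧
    s = D.w * e ∧ e ∈ D.G := by
  have hS : star ((D.w : R) + star (D.w : R)) = (D.w : R) + star (D.w : R) := by
    rw [star_add, star_star, add_comm]
  have hS2 : (D.w : R) + star (D.w : R) = D.w * (1 + D.c) := by
    rw [← Units.coe_star, D.star_w, Units.val_mul]
    noncomm_ring
  have hS0 : (D.w : R) + star (D.w : R) ≠ 0 := by
    rw [hS2]
    intro h0
    apply h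
    have h1 : (1 : R) + D.c = 0 := by
      have := congrArg (fun t => ((D.w⁻¹ : Rˣ) : R) * t) h0
      simpa using this
    exact eq_neg_of_add_eq_zero_right h1
  obtain ⟨s, hs, hss, hsx⟩ := D.exists_unit hS hS0
  refine ⟨s, D.w⁻¹ * s, hs, hss, ?_, by group, D.G.mul_mem (D.G.inv_mem D.hw) hs⟩
  rw [Units.val_mul, hsx, hS2]
  simp

theorem comm_e {e : Rˣ} (he : (e : R) = 1 + D.c) {l : Rˣ} (h : Commute l D.c) : Commute l e := by
  have h1 : (l : R) * D.c = D.c * l := by
    have := congrArg (Units.val) h.eq
    simpa using this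
  apply Units.ext
  rw [Units.val_mul, Units.val_mul, he]
  rw [mul_add, add_mul, h1, mul_one, one_mul]

/-- Step 3 -/
theorem step3 (h1 : (D.c : R) ≠ -1) (h2 : (D.c : R) * D.c ≠ -1) : False := by
  obtain ⟨s, e, hs, hss, he, hse, heG⟩ := D.exists_s h1
  have hce : Commute D.c e := D.comm_e he (Commute.refl _)
  have hcL : D.c ∈ D.L := D.P4
  have hcG : D.c ∈ D.G := D.LG hcL
  have hci : D.c⁻¹ * e = e * D.c⁻¹ := hce.inv_left.eq
  have hse' : star e * D.w = D.w * e * D.c⁻¹ := by
    have h3 : star e * star D.w = D.w * e := by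
      have h4 := hss
      rw [hse, star_mul] at h4
      exact h4
    rw [D.star_w, ← mul_assoc] at h3
    rw [← h3]; group
  obtain ⟨z, hz⟩ : ∃ z : Rˣ, z = e * e * D.c⁻¹ := ⟨_, rfl⟩
  obtain ⟨g1, hg1⟩ : ∃ g1 : Rˣ, g1 = D.w * z := ⟨_, rfl⟩
  have hcz : Commute D.c z := by
    rw [hz]
    exact (hce.mul_right hce).mul_right (Commute.inv_right (Commute.refl _))
  have hg1s : star g1 = g1 * D.c := by
    have e1 : star g1 = (star D.c)⁻¹ * (star e * (star e * D.w)) * D.c := by
      rw [hg1, hz, star_mul, star_mul, star_mul, star_inv, D.star_w]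
      simp only [mul_assoc]
    have e2 : star e * (star e * D.w) = D.w * e * D.c⁻¹ * e * D.c⁻¹ := by
      rw [hse', ← mul_assoc, ← mul_assoc, hse']
    have e3 : (star D.c)⁻¹ * (D.w * e * D.c⁻¹ * e * D.c⁻¹) * D.c
        = ((star D.c)⁻¹ * D.w) * e * D.c⁻¹ * e := by group
    rw [e1, e2, e3, D.star_c_inv, hg1, hz]
    calc D.w * D.c * e * D.c⁻¹ * e = D.w * (D.c * e) * D.c⁻¹ * e := by group
      _ = D.w * (e * e * D.c⁻¹) * D.c := by rw [hce.eq]; group
  have hsz : star (s * z) = s * z := by
    have e1 : star (s * z) = (star D.c)⁻¹ * (star e * (star e * D.w)) * e := by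
      rw [star_mul, hss, hz, star_mul, star_mul, star_inv, hse]
      simp only [mul_assoc]
    have e2 : star e * (star e * D.w) = D.w * e * D.c⁻¹ * e * D.c⁻¹ := by
      rw [hse', ← mul_assoc, ← mul_assoc, hse']
    have e3 : (star D.c)⁻¹ * (D.w * e * D.c⁻¹ * e * D.c⁻¹) * e
        = ((star D.c)⁻¹ * D.w) * e * (D.c⁻¹ * e) * (D.c⁻¹ * e) := by group
    rw [e1, e2, e3, D.star_c_inv, hci, hz, hse]
    have q1 : D.c * (e * D.c⁻¹) = e := by rw [← hci]; group
    have q2 : e * (e * D.c⁻¹) = e * D.c⁻¹ * e := by
      have q3 : e * (e * D.c⁻¹) = e * (D.c⁻¹ * e) := by rw [hci]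
      rw [q3, mul_assoc]
    calc D.w * D.c * e * (e * D.c⁻¹) * (e * D.c⁻¹)
        = D.w * D.c * (e * (e * D.c⁻¹)) * (e * D.c⁻¹) := by group
      _ = D.w * (D.c * (e * D.c⁻¹)) * e * (e * D.c⁻¹) := by rw [q2]; group
      _ = D.w * e * (e * e * D.c⁻¹) := by rw [q1]; group
  have hg1G : g1 ∈ D.G := by
    rw [hg1, hz]
    exact D.G.mul_mem D.hw (D.G.mul_mem (D.G.mul_mem heG heG) (D.G.inv_mem hcG))
  rcases D.P1 g1 hg1G with hL | ⟨j, hj, hL⟩
  · -- z ∈ L
    have hzL : z ∈ D.L := by
      rw [hg1, inv_mul_cancel_left] at hL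
      exact hL
    have hee : ∀ y : Rˣ, z = y → (1 + (D.c : R)) * (1 + D.c) = y * D.c := by
      intro y hy
      rw [← hy, hz, ← he, ← Units.val_mul, ← Units.val_mul]
      simp
    have hexp : (1 + (D.c : R)) * (1 + D.c) = 1 + ((D.c : R) + D.c) + D.c * D.c := by
      noncomm_ring
    rw [hexp, D.two] at hee
    rcases D.P2 (s * z) s hsz hss (by rw [inv_mul_cancel_left]; exact hzL) with h | h
    · have hz1 : z = 1 := by
        have := congrArg (fun t => s⁻¹ * t) h
        simpa using this
      have h3 := hee 1 hz1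
      rw [Units.val_one, one_mul] at h3
      have h4 : (D.c : R) - 1 = 0 := by
        apply D.red
        have h5 : ((D.c : R) - 1) * (D.c - 1) = D.c * D.c - (D.c + D.c) + 1 := by noncomm_ring
        have h6 : (D.c : R) * D.c = D.c + D.c - 1 := by
          have : (D.c : R) * D.c = (1 + -(D.c : R) + D.c * D.c) - 1 + D.c := by abel
          rw [this, h3]; abel
        rw [h5, h6]; abel
      exact D.c_ne_one (Units.ext (sub_eq_zero.1 h4))
    · have hz1 : z = -1 := by
        have := congrArg (fun t => s⁻¹ * t) h
        simpa using this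
      have h3 := hee (-1) hz1
      rw [Units.val_neg, Units.val_one, neg_mul, one_mul] at h3
      apply h2
      have : (D.c : R) * D.c = (1 + -(D.c : R) + D.c * D.c) - 1 + D.c := by abel
      rw [this, h3]; abel
  · obtain ⟨l, hl⟩ : ∃ l : Rˣ, l = j⁻¹ * g1 := ⟨_, rfl⟩
    rw [← hl] at hL
    have hjl : g1 = j * l := by rw [hl]; group
    have hX : star (j * (l * l * D.c)) = j * (l * l * D.c) := by
      have e1 : j * (l * l * D.c) = g1 * j⁻¹ * star g1 := by
        rw [hg1s, hjl]; group
      rw [e1, star_mul, star_mul, star_star, star_inv, hj, mul_assoc]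
    have hlc : Commute l D.c := by
      rcases D.P2 _ j hX hj (by
        rw [inv_mul_cancel_left]
        exact D.L.mul_mem (D.L.mul_mem hL hL) hcL) with h | h
      · have h3 : l * l * D.c = 1 := by
          have := congrArg (fun t => j⁻¹ * t) h
          simpa using this
        have h4 : D.c = (l * l)⁻¹ := by
          rw [eq_inv_iff_mul_eq_one]
          have h5 : D.c = (l * l)⁻¹ := (inv_eq_of_mul_eq_one_right h3).symm
          rw [h5]; group
        rw [h4]
        exact ((Commute.refl l).mul_right (Commute.refl l)).inv_right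
      · have h3 : l * l * D.c = -1 := by
          have := congrArg (fun t => j⁻¹ * t) h
          simpa using this
        have h4 : D.c = -(l * l)⁻¹ := by
          have h5 : l * l * (-D.c) = 1 := by rw [mul_neg, h3, neg_neg]
          have h6 : -D.c = (l * l)⁻¹ := (inv_eq_of_mul_eq_one_right h5).symm
          rw [← h6, neg_neg]
        rw [h4]
        exact ((Commute.refl l).mul_right (Commute.refl l)).inv_right.neg_right
    have hle : Commute l e := D.comm_e he hlc
    have hlz : Commute l z := by
      rw [hz]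
      exact (hle.mul_right hle).mul_right hlc.inv_right
    apply D.P3 (D.w * l⁻¹)
    · have e1 : star l = g1 * D.c * j⁻¹ := by rw [hl, star_mul, star_inv, hj, hg1s]
      have e2 : star (D.w * l⁻¹) = j * D.c⁻¹ * (g1⁻¹ * D.w) * D.c := by
        rw [star_mul, star_inv, e1, D.star_w]; group
      have e3 : g1⁻¹ * D.w = z⁻¹ := by rw [hg1]; group
      have e4 : j = D.w * z * l⁻¹ := by rw [← hg1, hjl]; group
      rw [e2, e3]
      calc j * D.c⁻¹ * z⁻¹ * D.c = j * (D.c⁻¹ * z⁻¹) * D.c := by group
        _ = j * z⁻¹ := by rw [hcz.inv_inv.eq]; group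
        _ = D.w * (z * l⁻¹) * z⁻¹ := by nth_rewrite 1 [e4]; group
        _ = D.w * l⁻¹ := by rw [← hlz.inv_left.eq]; group
    · rw [inv_mul_cancel_left]
      exact D.L.inv_mem hL

theorem cc_one_ne (h : (D.c : R) * D.c = -1) : (D.c : R) ≠ -1 := by
  intro h1
  apply D.ne_neg_one
  rw [← h, h1]; noncomm_ring

/-- Step 4 -/
theorem step4 (h : (D.c : R) * D.c = -1) : False := by
  have h1 := D.cc_one_ne h
  obtain ⟨s, e, hs, hss, he, hse, heG⟩ := D.exists_s h1
  have hcL : D.c ∈ D.L := D.P4
  obtain ⟨hcs, hcomm⟩ := D.step1 hcL h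
  have hcc : D.c * D.c = -1 := Units.ext (by simpa using h)
  have hci : D.c⁻¹ = -D.c := by
    rw [inv_eq_iff_mul_eq_one, mul_neg, hcc, neg_neg]
  have hcs' : star D.c = -D.c := Units.ext (by simpa using hcs)
  -- c commutes with w
  have hcw : Commute D.c D.w := by
    have h2 := D.star_c
    rw [hcs', hci] at h2
    have h3 : D.c * D.w = D.w * D.c := by
      have := congrArg (fun t => -t) h2
      simpa using this
    exact h3
  have hcj : ∀ j : Rˣ, star j = j → Commute D.c j := by
    intro j hj
    apply Units.ext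
    have := hcomm (j : R) (by rw [← Units.coe_star, hj])
    simpa using this
  have hee : e * e = -D.c := by
    apply Units.ext
    rw [Units.val_mul, Units.val_neg, he]
    have h2 : (1 + (D.c : R)) * (1 + D.c) = 1 + (D.c + D.c) + D.c * D.c := by noncomm_ring
    rw [h2, h, D.two]; abel
  -- every self-adjoint unit is ± s
  have key : ∀ j : Rˣ, star j = j → j = s ∨ j = -s := by
    intro j hj
    have hjG := D.mem_G hj
    have hcj' := hcj j hj
    rcases D.P1 (j * e⁻¹) (D.G.mul_mem hjG (D.G.inv_mem heG)) with hL | ⟨j', hj', hL⟩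
    · -- (a)
      apply D.P2 j s hj hss
      have h3 : Commute (D.w⁻¹ * j) e := D.comm_e he ((hcw.symm.inv_left).mul_left hcj'.symm)
      have h4 : s⁻¹ * j = D.w⁻¹ * (j * e⁻¹) := by
        rw [hse]
        calc (D.w * e)⁻¹ * j = e⁻¹ * (D.w⁻¹ * j) := by group
          _ = (D.w⁻¹ * j) * e⁻¹ := by rw [h3.inv_right.eq]
          _ = D.w⁻¹ * (j * e⁻¹) := by group
      rw [h4]
      exact hL
    · exfalso
      obtain ⟨f, hf⟩ : ∃ f : Rˣ, f = j'⁻¹ * j := ⟨_, rfl⟩
      obtain ⟨l, hl⟩ : ∃ l : Rˣ, l = j'⁻¹ * (j * e⁻¹) := ⟨_, rfl⟩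
      rw [← hl] at hL
      have hlf : l = f * e⁻¹ := by rw [hl, hf]; group
      have hcf : Commute D.c f := by
        rw [hf]
        exact (hcj j' hj').inv_right.mul_right hcj'
      have hfe : Commute f e := D.comm_e he hcf.symm
      have hff : f * f = l * l * D.c⁻¹ := by
        have e1 : l * l = f * f * (e * e)⁻¹ := by
          rw [hlf]
          calc f * e⁻¹ * (f * e⁻¹) = f * (e⁻¹ * f) * e⁻¹ := by group
            _ = f * f * (e * e)⁻¹ := by rw [← hfe.inv_right.eq]; group
        have e2 : (e * e)⁻¹ = D.c := by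
          rw [hee, ← hci, inv_inv]
        rw [e1, e2]; group
      have hffL : f * f ∈ D.L := by
        rw [hff]
        exact D.L.mul_mem (D.L.mul_mem hL hL) (D.L.inv_mem hcL)
      have hjj : j' * (f * f) = j * j'⁻¹ * j := by rw [hf]; group
      have hst : star (j' * (f * f)) = j' * (f * f) := by
        rw [hjj, star_mul, star_mul, star_inv, hj, hj', mul_assoc]
      rcases D.P2 _ j' hst hj' (by rw [inv_mul_cancel_left]; exact hffL) with hp | hp
      · -- j j'⁻¹ j = j'
        rw [hjj] at hp
        have e1 : ((j : R) - j') * ((j'⁻¹ : Rˣ) : R) * (j + j') = 0 := by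
          have e2 : ((j : R) - j') * ((j'⁻¹ : Rˣ) : R) * (j + j')
              = j * ((j'⁻¹ : Rˣ) : R) * j + j * (((j'⁻¹ : Rˣ) : R) * j')
                - (j' * ((j'⁻¹ : Rˣ) : R)) * j - (j' * ((j'⁻¹ : Rˣ) : R)) * j' := by
            noncomm_ring
          rw [e2, Units.inv_mul, Units.mul_inv, mul_one, one_mul, one_mul]
          have e3 : (j : R) * ((j'⁻¹ : Rˣ) : R) * j = j' := by
            have := congrArg Units.val hp
            simpa using this
          rw [e3]; abel
        have e4 : j = j' ∨ j = -j' := by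
          by_cases hd : (j : R) - j' = 0
          · left; exact Units.ext (sub_eq_zero.1 hd)
          · right
            obtain ⟨u, -, -, hu⟩ := D.exists_unit (x := (j : R) - j')
              (by rw [star_sub, ← Units.coe_star, ← Units.coe_star, hj, hj']) hd
            have e5 : ((u * j'⁻¹ : Rˣ) : R) * (j + j') = 0 := by
              rw [Units.val_mul, hu]; exact e1
            have e6 : (j : R) + j' = 0 := by
              have := congrArg (fun t => (((u * j'⁻¹)⁻¹ : Rˣ) : R) * t) e5
              rw [Units.inv_mul_cancel_left, mul_zero] at this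
              exact this
            apply Units.ext
            rw [Units.val_neg]
            exact eq_neg_of_add_eq_zero_left e6
        have e7 : e ∈ D.L := by
          rcases e4 with e4 | e4
          · have : f = 1 := by rw [hf, e4, inv_mul_cancel]
            rw [hlf, this, one_mul] at hL
            have := D.L.inv_mem hL
            rwa [inv_inv] at this
          · have : f = -1 := by rw [hf, e4, mul_neg, inv_mul_cancel]
            rw [hlf, this] at hL
            have := D.L.mul_mem D.P5 (D.L.inv_mem hL)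
            have e8 : (-1 : Rˣ) * (-1 * e⁻¹)⁻¹ = e := by
              rw [mul_inv_rev, inv_inv, inv_neg, inv_one]
              simp
            rwa [e8] at this
        apply D.P3 s hss
        rw [hse, inv_mul_cancel_left]
        exact e7
      · -- f² = -1
        have hff1 : f * f = -1 := by
          have := congrArg (fun t => j'⁻¹ * t) hp
          simpa using this
        obtain ⟨t, ht⟩ : ∃ t : Rˣ, t = f * D.c := ⟨_, rfl⟩
        have htt : (t : R) * t = 1 := by
          have : t * t = 1 := by
            rw [ht]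
            calc f * D.c * (f * D.c) = f * (D.c * f) * D.c := by group
              _ = f * f * (D.c * D.c) := by rw [hcf.eq]; group
              _ = 1 := by rw [hff1, hcc]; simp
          have := congrArg Units.val this
          simpa using this
        have htc := D.inv_central htt
        have htc' : ∀ u : Rˣ, Commute t u := by
          intro u
          apply Units.ext
          have := htc (u : R)
          simpa using this
        -- star t = -t
        have hts : star t = -t := by
          have e1 : j' * t = j * D.c := by rw [ht, hf]; group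
          have e2 : star (j' * t) = -(j' * t) := by
            rw [e1, star_mul, hj, hcs', neg_mul, hcj'.eq]
          rw [star_mul, hj', (htc' j').symm.eq] at e2
          have e3 : star t * j' = -t * j' := by rw [e2, neg_mul]
          exact mul_right_cancel e3
        have hfs : star f = f := by
          have e1 : f = t * D.c⁻¹ := by rw [ht]; group
          rw [e1, star_mul, star_inv, hts, hcs', inv_neg, neg_mul_neg]
          exact ((htc' D.c⁻¹).symm).eq
        have hcomf : Commute f s := by
          have e1 : f = t * D.c⁻¹ := by rw [ht]; group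
          rw [e1]
          exact (htc' s).mul_left (hcj s hss).inv_left
        apply D.P3 (s * f⁻¹)
        · rw [star_mul, star_inv, hfs, hss]
          exact hcomf.inv_left.eq
        · have e1 : D.w⁻¹ * (s * f⁻¹) = l⁻¹ := by
            rw [hse, hlf]; group
          rw [e1]
          exact D.L.inv_mem hL
  obtain ⟨x, hx, hx0, hx1, hx2⟩ := D.big (s : R) (by rw [← Units.coe_star, hss])
  obtain ⟨u, -, hus, hux⟩ := D.exists_unit hx hx0
  rcases key u hus with h2 | h2
  · apply hx1; rw [← hux, h2]
  · apply hx2; rw [← hux, h2, Units.val_neg]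

/-- Step 5 -/
theorem step5 (h : (D.c : R) = -1) : False := by
  have hc1 : D.c = -1 := Units.ext (by simpa using h)
  have hsw : star D.w = -D.w := by rw [D.star_w, hc1]; simp
  have hswi : star D.w⁻¹ = -D.w⁻¹ := by rw [star_inv, hsw, inv_neg]
  -- (w⁻¹ s)² = ± 1
  have key : ∀ s : Rˣ, star s = s → D.w⁻¹ * s * (D.w⁻¹ * s) = 1 ∨ D.w⁻¹ * s * (D.w⁻¹ * s) = -1 := by
    intro s hs
    have hks : star (s * D.w⁻¹ * s) = -(s * D.w⁻¹ * s) := by
      rw [star_mul, star_mul, hs, hswi, neg_mul, mul_neg, mul_assoc]
    have hG : s * D.w⁻¹ * s ∈ D.G :=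
      D.G.mul_mem (D.G.mul_mem (D.mem_G hs) (D.G.inv_mem D.hw)) (D.mem_G hs)
    rcases D.P1 _ hG with hL | ⟨j, hj, hL⟩
    · have e1 : s⁻¹ * (s * (D.w⁻¹ * s * (D.w⁻¹ * s))) = D.w⁻¹ * (s * D.w⁻¹ * s) := by group
      have e2 : star (s * (D.w⁻¹ * s * (D.w⁻¹ * s))) = s * (D.w⁻¹ * s * (D.w⁻¹ * s)) := by
        simp only [star_mul, hs, hswi, neg_mul, mul_neg, neg_neg, mul_assoc]
      rcases D.P2 _ s e2 hs (by rw [e1]; exact hL) with h1 | h1
      · left
        have := congrArg (fun t => s⁻¹ * t) h1
        simpa using this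
      · right
        have := congrArg (fun t => s⁻¹ * t) h1
        simpa using this
    · exfalso
      obtain ⟨l, hl⟩ : ∃ l : Rˣ, l = j⁻¹ * (s * D.w⁻¹ * s) := ⟨_, rfl⟩
      rw [← hl] at hL
      have hjl : s * D.w⁻¹ * s = j * l := by rw [hl]; group
      have hsl : star l = -(j * l * j⁻¹) := by
        rw [hl, star_mul, hks, star_inv, hj]
        rw [neg_mul]; group
      have hX : star (j * (l * l)) = j * (l * l) := by
        rw [star_mul, star_mul, hj, hsl]
        rw [neg_mul_neg]; group
      have hll : l * l = 1 ∨ l * l = -1 := by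
        rcases D.P2 _ j hX hj (by
          rw [inv_mul_cancel_left]; exact D.L.mul_mem hL hL) with h1 | h1
        · left
          have := congrArg (fun t => j⁻¹ * t) h1
          simpa using this
        · right
          have := congrArg (fun t => j⁻¹ * t) h1
          simpa using this
      have hcomm : (∀ u : Rˣ, star u = u → Commute l u) ∧ Commute l D.w := by
        rcases hll with h1 | h1
        · have h2 : (l : R) * l = 1 := by
            have := congrArg Units.val h1
            simpa using this
          have h3 : ∀ u : Rˣ, Commute l u := by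
            intro u
            apply Units.ext
            have := D.inv_central h2 (u : R)
            simpa using this
          exact ⟨fun u _ => h3 u, h3 _⟩
        · have h2 : (l : R) * l = -1 := by
            have := congrArg Units.val h1
            simpa using this
          have h3 : ∀ u : Rˣ, star u = u → Commute l u := by
            intro u hu
            apply Units.ext
            have := (D.step1 hL h2).2 (u : R) (by rw [← Units.coe_star, hu])
            simpa using this
          refine ⟨h3, ?_⟩
          have h4 : D.w⁻¹ = s⁻¹ * (j * l) * s⁻¹ := by rw [← hjl]; group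
          have h5 : Commute l D.w⁻¹ := by
            rw [h4]
            exact ((h3 s hs).inv_right.mul_right ((h3 j hj).mul_right (Commute.refl _))).mul_right
              (h3 s hs).inv_right
          have h6 := h5.inv_right
          rwa [inv_inv] at h6
      have hsl' : star l = -l := by
        rw [hsl]
        have : j * l * j⁻¹ = l := by
          rw [← (hcomm.1 j hj).eq]; group
        rw [this]
      apply D.P3 (D.w * l)
      · rw [star_mul, hsw, hsl', neg_mul_neg]
        exact hcomm.2.eq
      · rw [inv_mul_cancel_left]; exact hL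
  by_cases hA : ∃ s : Rˣ, star s = s ∧ D.w⁻¹ * s * (D.w⁻¹ * s) = 1
  · obtain ⟨s1, hs1, hm⟩ := hA
    obtain ⟨m, hmd⟩ : ∃ m : Rˣ, m = D.w⁻¹ * s1 := ⟨_, rfl⟩
    rw [← hmd] at hm
    have hmm : (m : R) * m = 1 := by
      have := congrArg Units.val hm
      simpa using this
    have hmc : ∀ u : Rˣ, Commute m u := by
      intro u
      apply Units.ext
      have := D.inv_central hmm (u : R)
      simpa using this
    have hsq : ∀ s : Rˣ, star s = s → s1⁻¹ * s * (s1⁻¹ * s) = 1 ∨ s1⁻¹ * s * (s1⁻¹ * s) = -1 := by
      intro s hs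
      have e1 : D.w⁻¹ * s * (D.w⁻¹ * s) = s1⁻¹ * s * (s1⁻¹ * s) := by
        have e2 : D.w⁻¹ * s = m * (s1⁻¹ * s) := by rw [hmd]; group
        rw [e2]
        calc m * (s1⁻¹ * s) * (m * (s1⁻¹ * s)) = m * ((s1⁻¹ * s) * m) * (s1⁻¹ * s) := by group
          _ = m * m * (s1⁻¹ * s * (s1⁻¹ * s)) := by rw [← (hmc (s1⁻¹ * s)).eq]; group
          _ = _ := by rw [hm, one_mul]
      rw [← e1]
      exact key s hs
    obtain ⟨x, hx, hx0, hx1, hx2⟩ := D.big (s1 : R) (by rw [← Units.coe_star, hs1])
    obtain ⟨s, -, hs, hsx⟩ := D.exists_unit hx hx0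
    have hx3 : star (x + s1) = x + s1 := by rw [star_add, hx, ← Units.coe_star, hs1]
    obtain ⟨s', -, hs', hsx'⟩ := D.exists_unit hx3 (by
      intro h0
      exact hx2 (eq_neg_of_add_eq_zero_left h0))
    obtain ⟨y, hy⟩ : ∃ y : R, y = ((s1⁻¹ * s : Rˣ) : R) := ⟨_, rfl⟩
    have hxy : x = s1 * y := by rw [hy, ← hsx, Units.val_mul, Units.mul_inv_cancel_left]
    have hy' : ((s1⁻¹ * s' : Rˣ) : R) = y + 1 := by
      rw [Units.val_mul, hsx', mul_add, Units.inv_mul, hy, Units.val_mul, hsx]
    have q1 : y * y = 1 ∨ y * y = -1 := by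
      rcases hsq s hs with h1 | h1
      · left
        have := congrArg Units.val h1
        rw [Units.val_mul, ← hy] at this
        simpa using this
      · right
        have := congrArg Units.val h1
        rw [Units.val_mul, ← hy] at this
        simpa using this
    have q2 : (y + 1) * (y + 1) = 1 ∨ (y + 1) * (y + 1) = -1 := by
      rcases hsq s' hs' with h1 | h1
      · left
        have := congrArg Units.val h1
        rw [Units.val_mul, hy'] at this
        simpa using this
      · right
        have := congrArg Units.val h1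
        rw [Units.val_mul, hy'] at this
        simpa using this
    have q3 : (y + 1) * (y + 1) = y * y + (y + y) + 1 := by noncomm_ring
    rw [q3, D.two] at q2
    have t1 : (1 : R) + 1 = -1 := D.two 1
    have hyv : y = 0 ∨ y = 1 ∨ y = -1 := by
      rcases q1 with a | a <;> rcases q2 with b | b <;> rw [a] at b
      · -- 1 - y + 1 = 1
        right; left
        have : y = 1 + 1 - (1 + -y + 1) := by abel
        rw [this, b]; abel
      · left
        have : y = 1 + 1 - (1 + -y + 1) := by abel
        rw [this, b, t1]; abel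
      · right; right
        have : y = -1 + 1 - (-1 + -y + 1) := by abel
        rw [this, b]; abel
      · right; left
        have : y = -1 + 1 - (-1 + -y + 1) := by abel
        rw [this, b]; abel
    rcases hyv with h1 | h1 | h1
    · apply hx0; rw [hxy, h1, mul_zero]
    · apply hx1; rw [hxy, h1, mul_one]
    · apply hx2; rw [hxy, h1, mul_neg, mul_one]
  · push Not at hA
    have hB : ∀ s : Rˣ, star s = s → D.w⁻¹ * s * (D.w⁻¹ * s) = -1 := by
      intro s hs
      exact (key s hs).resolve_left (hA s hs)
    have hw1 : D.w⁻¹ = -D.w := by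
      have h1 := hB 1 (star_one _)
      rw [mul_one] at h1
      have h2 := congrArg (fun t => D.w * t) h1
      simpa using h2
    have hR : ∀ x : R, star x = x → x ≠ 0 → x * D.w * x = D.w := by
      intro x hx h0
      obtain ⟨s, -, hs, hsx⟩ := D.exists_unit hx h0
      have h1 := hB s hs
      have h2 : s * D.w * s = D.w := by
        have h3 : s * D.w⁻¹ * s = -D.w := by
          have h4 := congrArg (fun t => D.w * t) h1
          simp only [mul_neg, mul_one] at h4
          rw [← h4]; group
        rw [hw1] at h3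
        have h5 := congrArg (fun t => -t) h3
        simpa using h5
      rw [← hsx]
      have := congrArg Units.val h2
      simpa using this
    obtain ⟨x, hx, hx0, hx1, hx2⟩ := D.big 1 (star_one _)
    have a1 := hR x hx hx0
    have a2 := hR (x + 1) (by rw [star_add, star_one, hx]) (by
      intro h0; exact hx2 (eq_neg_of_add_eq_zero_left h0))
    have a3 := hR (x - 1) (by rw [star_sub, star_one, hx]) (sub_ne_zero.2 hx1)
    have b2 : (x + 1) * (D.w : R) * (x + 1) = x * D.w * x + (x * D.w + D.w * x) + D.w := by
      noncomm_ring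
    have b3 : (x - 1) * (D.w : R) * (x - 1) = x * D.w * x - (x * D.w + D.w * x) + D.w := by
      noncomm_ring
    rw [b2, a1] at a2
    rw [b3, a1] at a3
    -- w + S + w = w, w - S + w = w
    have c1 : x * (D.w : R) + D.w * x = -D.w := by
      have : x * (D.w : R) + D.w * x = (D.w + (x * (D.w : R) + D.w * x) + D.w) - D.w - D.w := by
        abel
      rw [this, a2]; abel
    rw [c1, sub_neg_eq_add] at a3
    have c2 : (D.w : R) = 0 := by
      have h3 := D.three (D.w : R)
      rw [a3] at h3
      exact h3
    exact D.unit_ne D.w c2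

/-- no such data exist -/
theorem false_of : False := by
  by_cases h1 : (D.c : R) = -1
  · exact D.step5 h1
  · by_cases h2 : (D.c : R) * D.c = -1
    · exact D.step4 h2
    · exact D.step3 h1 h2

end HD

end Pool.Agent.I6
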