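import Pool.Agent.Lib_MP_f98417_coJ.Cent
import Pool.Agent.Lib_MP_f98417_coJ.Herm

set_option autoImplicit false

/-!
Lifting units of the ring to permutations of `A`.
-/

namespace Pool.Agent.I6

/-- identification of `M` with the self-adjoint elements of a ring with involution -/
structure Rep {M A : Type} [AddCommGroup M] (S : Alg M A) (R : Type) [Ring R] [StarRing R] where
  e : M →+ R
  inj : ∀ z, e z = 0 → z = 0
  star_e : ∀ z, star (e z) = e z
  surj : ∀ r : R, star r = r → ∃ z, e z = r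
  u : M → Rˣ
  hu : ∀ z, z ≠ 0 → (u z : R) = e z
  hn : ∀ b z, b ≠ 0 → z ≠ 0 → e (S.n b z) = -(e b * (((u z)⁻¹ : Rˣ) : R) * e b)
  red : ∀ x : R, x * x = 0 → x = 0

namespace Rep

variable {M A : Type} [AddCommGroup M] {S : Alg M A} {R : Type} [Ring R] [StarRing R]
  (D : Rep S R)

include D

theorem e_inj {x y : M} (h : D.e x = D.e y) : x = y := by
  have h1 : D.e (x - y) = 0 := by rw [map_sub, h, sub_self]
  exact sub_eq_zero.1 (D.inj _ h1)

theorem star_u {z : M} (hz : z ≠ 0) : star (D.u z) = D.u z := by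
  apply Units.ext
  rw [Units.coe_star, D.hu z hz, D.star_e]

theorem u_eq {g : Rˣ} {z : M} (hz : z ≠ 0) (h : D.e z = g) : D.u z = g := by
  apply Units.ext
  rw [D.hu z hz, h]

theorem u_neg {z : M} (hz : z ≠ 0) : D.u (-z) = -D.u z := by
  apply D.u_eq (neg_ne_zero.2 hz)
  rw [map_neg, Units.val_neg, D.hu z hz]

theorem hn' {b z : M} (hb : b ≠ 0) (hz : z ≠ 0) :
    D.u (S.n b z) = -(D.u b * (D.u z)⁻¹ * D.u b) := by
  apply D.u_eq (S.n_ne hb hz)
  rw [D.hn b z hb hz, Units.val_neg, Units.val_mul, Units.val_mul, D.hu b hb]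

/-- `φ` lifts `g` -/
def Lift (g : Rˣ) (φ : Equiv.Perm A) : Prop :=
  ∀ z z' : M, z ≠ 0 → D.e z' = g * D.e z * star (g : R) → ∀ c, φ (S.F z c) = S.F z' (φ c)

theorem exists_act (g : Rˣ) {z : M} (hz : z ≠ 0) :
    ∃ z' : M, z' ≠ 0 ∧ D.e z' = g * D.e z * star (g : R) := by
  obtain ⟨z', hz'⟩ := D.surj (g * D.e z * star (g : R)) (by
    rw [star_mul, star_mul, star_star, D.star_e, mul_assoc])
  refine ⟨z', ?_, hz'⟩
  rintro rfl
  apply hz
  apply D.inj
  rw [map_zero] at hz'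
  have h1 : D.e z = ((g⁻¹ : Rˣ) : R) * (g * D.e z * star (g : R)) * star ((g⁻¹ : Rˣ) : R) := by
    have h2 : star (g : R) * star ((g⁻¹ : Rˣ) : R) = 1 := by
      rw [← star_mul, Units.inv_mul, star_one]
    rw [mul_assoc (g : R), Units.inv_mul_cancel_left, mul_assoc, h2, mul_one]
  rw [h1, ← hz', mul_zero, zero_mul]

theorem lift_mul {g h : Rˣ} {φ ψ : Equiv.Perm A} (hg : D.Lift g φ) (hh : D.Lift h ψ) :
    D.Lift (g * h) (φ * ψ) := by
  intro z z' hz hz' c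
  obtain ⟨z1, hz1, hz1'⟩ := D.exists_act h hz
  rw [Equiv.Perm.mul_apply, hh z z1 hz hz1']
  apply hg z1 z' hz1
  rw [hz', hz1', Units.val_mul, star_mul]
  noncomm_ring

theorem lift_inv {g : Rˣ} {φ : Equiv.Perm A} (hg : D.Lift g φ) : D.Lift g⁻¹ φ⁻¹ := by
  intro z z' hz hz' c
  have h1 : D.e z = g * D.e z' * star (g : R) := by
    have h2 : star ((g⁻¹ : Rˣ) : R) * star (g : R) = 1 := by
      rw [← star_mul, Units.mul_inv, star_one]
    rw [hz', mul_assoc ((g⁻¹ : Rˣ) : R), Units.mul_inv_cancel_left, mul_assoc, h2, mul_one]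
  have hz'0 : z' ≠ 0 := by
    rintro rfl
    apply hz
    apply D.inj
    rw [h1, map_zero, mul_zero, zero_mul]
  have h3 := hg z' z hz'0 h1 (φ.symm c)
  rw [Equiv.apply_symm_apply] at h3
  show φ.symm (S.F z c) = S.F z' (φ.symm c)
  rw [← h3, Equiv.symm_apply_apply]

theorem lift_E {g : Rˣ} {φ : Equiv.Perm A} (hg : D.Lift g φ) {z : M} (hz : z ≠ 0) (c : A) :
    φ (S.E c) = S.E (φ c) := by
  obtain ⟨z', hz', he⟩ := D.exists_act g hz
  rw [← S.F_neg_F hz, ← S.F_neg_F hz', ← hg z z' hz he]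
  apply hg (-z) (-z') (neg_ne_zero.2 hz)
  rw [map_neg, map_neg, he]
  noncomm_ring

theorem lift_one_E : D.Lift 1 S.E := by
  intro z z' hz hz' c
  have : z' = z := by
    apply D.e_inj
    rw [hz']; simp
  rw [this, S.E_F hz]

theorem lift_uniq (h3 : ∀ z : M, z + z + z = 0)
    (hbig : ∀ y : M, ∃ t : M, t ≠ 0 ∧ t ≠ y ∧ t ≠ -y) {g : Rˣ} {φ ψ : Equiv.Perm A}
    (hφ : D.Lift g φ) (hψ : D.Lift g ψ) (c : A) : ψ c = φ c ∨ ψ c = S.E (φ c) := by
  obtain ⟨z0, hz0, -, -⟩ := hbig 0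
  have h1 := D.lift_mul (D.lift_inv hφ) hψ
  rw [inv_mul_cancel] at h1
  have h2 := S.e3_central h3 hbig (g := fun c => (φ⁻¹ * ψ) c)
    (fun c => D.lift_E h1 hz0 c)
    (fun x hx c => h1 x x hx (by simp) c) c
  have h4 : φ ((φ⁻¹ * ψ) c) = ψ c := by
    rw [Equiv.Perm.mul_apply]
    exact φ.apply_symm_apply _
  rcases h2 with h | h
  · left
    rw [← h4]
    exact congrArg φ h
  · right
    rw [← h4, ← D.lift_E hφ hz0]
    exact congrArg φ h

theorem lift_jk {j k : M} (hj : j ≠ 0) (hk : k ≠ 0) :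
    D.Lift (D.u j * (D.u k)⁻¹) (S.F j * S.F k) := by
  intro z z' hz hz' c
  have hkz := S.n_ne hk hz
  have e1 : S.F j (S.F k (S.F z c)) = S.F (S.n j (S.n k z)) (S.F j (S.F k c)) := by
    rw [S.F_F hk hz, S.F_F hj (neg_ne_zero.2 hkz), S.n_neg hj hkz, neg_neg]
  have e2 : z' = S.n j (S.n k z) := by
    apply D.e_inj
    rw [D.hn j _ hj hkz, D.hn' hk hz, hz']
    have h1 : (-(D.u k * (D.u z)⁻¹ * D.u k))⁻¹ = -((D.u k)⁻¹ * D.u z * (D.u k)⁻¹) := by
      rw [inv_neg]; group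
    rw [h1]
    have h2 : star ((D.u j * (D.u k)⁻¹ : Rˣ) : R) = (((D.u k)⁻¹ * D.u j : Rˣ) : R) := by
      rw [← Units.coe_star, star_mul, star_inv, D.star_u hj, D.star_u hk]
    rw [h2, ← D.hu z hz, ← D.hu j hj]
    simp only [Units.val_neg, Units.val_mul, mul_neg, neg_mul, neg_neg, mul_assoc]
  rw [Equiv.Perm.mul_apply, Equiv.Perm.mul_apply, e1, e2]

theorem lift_star {g : Rˣ} {φ : Equiv.Perm A} (hg : D.Lift g φ) {o : M} (ho : o ≠ 0)
    (ho1 : D.u o = 1) : D.Lift (star g) (S.F o * φ⁻¹ * S.F o) := by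
  intro z z' hz hz' c
  -- F_o F_z = F_{z1} F_o, u z1 = (u z)⁻¹
  have key : ∀ z : M, z ≠ 0 → (-(S.n o z)) ≠ 0 ∧ D.u (-(S.n o z)) = (D.u z)⁻¹ := by
    intro z hz
    have h0 := S.n_ne ho hz
    refine ⟨neg_ne_zero.2 h0, ?_⟩
    rw [D.u_neg h0, D.hn' ho hz, neg_neg, ho1, one_mul, mul_one]
  obtain ⟨h1, h1'⟩ := key z hz
  obtain ⟨z2, hz2, hz2'⟩ := D.exists_act g⁻¹ h1
  have hu2 : D.u z2 = g⁻¹ * (D.u z)⁻¹ * star g⁻¹ := by
    apply D.u_eq hz2
    rw [hz2', ← D.hu _ h1, h1', Units.val_mul, Units.val_mul, Units.coe_star]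
  obtain ⟨h3, h3'⟩ := key z2 hz2
  have e3 : z' = -(S.n o z2) := by
    apply D.e_inj
    rw [← D.hu _ h3, h3', hu2, hz', ← D.hu z hz, ← Units.coe_star, star_star, ← Units.val_mul,
      ← Units.val_mul, star_inv]
    congr 1
    group
  rw [Equiv.Perm.mul_apply, Equiv.Perm.mul_apply, Equiv.Perm.mul_apply, Equiv.Perm.mul_apply,
    S.F_F ho hz, D.lift_inv hg _ z2 h1 hz2', S.F_F ho hz2, e3]

/-- the contradiction -/
theorem false_of [Nonempty A] (h3 : ∀ z : M, z + z + z = 0)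
    (hbig : ∀ y : M, ∃ t : M, t ≠ 0 ∧ t ≠ y ∧ t ≠ -y) : False := by
  obtain ⟨p⟩ := ‹Nonempty A›
  obtain ⟨z0, hz0, -, -⟩ := hbig 0
  have hnt : (1 : R) ≠ 0 := by
    intro h
    apply hz0
    apply D.inj
    rw [← mul_one (D.e z0), h, mul_zero]
  obtain ⟨o, ho1⟩ := D.surj 1 (star_one R)
  have ho : o ≠ 0 := by
    rintro rfl
    rw [map_zero] at ho1
    exact hnt ho1.symm
  have huo : D.u o = 1 := D.u_eq ho (by rw [ho1, Units.val_one])
  have h3R : ∀ x : R, x + x + x = 0 := by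
    intro x
    have h1 : D.e (o + o + o) = 0 := by rw [h3, map_zero]
    rw [map_add, map_add, ho1] at h1
    have h2 : x + x + x = x * (1 + 1 + 1) := by noncomm_ring
    rw [h2, h1, mul_zero]
  -- lifts of u x
  have hux : ∀ {x : M}, x ≠ 0 → D.Lift (D.u x) (S.F x * S.F o) := by
    intro x hx
    have := D.lift_jk hx ho
    rwa [huo, inv_one, mul_one] at this
  have hEE := S.e3_EE h3 hbig
  -- w
  obtain ⟨w, φw, hw, hwp⟩ : ∃ (w : Rˣ) (φ : Equiv.Perm A), D.Lift w φ ∧ φ p = S.F o p := by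
    obtain ⟨x, hx, hxo, hxo'⟩ := hbig o
    rcases S.F_surj (S.F x p) (S.F o p) with h | h | ⟨y, hy, h⟩
    · exact absurd (S.F_inj p ho hx h).symm hxo
    · exfalso
      rw [← S.e3_Fneg h3 hbig hx] at h
      apply hxo'
      rw [S.F_inj p ho (neg_ne_zero.2 hx) h, neg_neg]
    · exact ⟨_, _, D.lift_jk hy hx, h⟩
  -- self-adjoint units
  have hsa : ∀ j : Rˣ, star j = j → ∃ x : M, x ≠ 0 ∧ D.u x = j := by
    intro j hj
    obtain ⟨x, hx⟩ := D.surj (j : R) (by rw [← Units.coe_star, hj])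
    have hx0 : x ≠ 0 := by
      rintro rfl
      rw [map_zero] at hx
      apply hnt
      rw [← j.mul_inv, ← hx, zero_mul]
    exact ⟨x, hx0, D.u_eq hx0 hx⟩
  let G : Subgroup Rˣ :=
    { carrier := {g | ∃ φ, D.Lift g φ}
      mul_mem' := by
        rintro a b ⟨φ, hφ⟩ ⟨ψ, hψ⟩
        exact ⟨φ * ψ, D.lift_mul hφ hψ⟩
      one_mem' := ⟨S.E, D.lift_one_E⟩
      inv_mem' := by
        rintro a ⟨φ, hφ⟩
        exact ⟨φ⁻¹, D.lift_inv hφ⟩ }
  let L : Subgroup Rˣ :=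
    { carrier := {g | ∃ φ, D.Lift g φ ∧ φ p = p}
      mul_mem' := by
        rintro a b ⟨φ, hφ, h1⟩ ⟨ψ, hψ, h2⟩
        refine ⟨φ * ψ, D.lift_mul hφ hψ, ?_⟩
        rw [Equiv.Perm.mul_apply, h2, h1]
      one_mem' := ⟨S.E * S.E, by
        have := D.lift_mul (D.lift_one_E) (D.lift_one_E)
        rwa [mul_one] at this, hEE p⟩
      inv_mem' := by
        rintro a ⟨φ, hφ, h1⟩
        refine ⟨φ⁻¹, D.lift_inv hφ, ?_⟩
        show φ.symm p = p
        rw [Equiv.symm_apply_eq, h1] }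
  refine HD.false_of (R := R)
    { three := h3R
      nontriv := hnt
      red := D.red
      G := G
      L := L
      w := w
      hw := ⟨φw, hw⟩
      LG := fun g hg => ⟨hg.choose, hg.choose_spec.1⟩
      hJ := ?_
      P1 := ?_
      P2 := ?_
      P3 := ?_
      P4 := ?_
      P5 := ?_
      big := ?_ }
  · intro x hx hx0
    obtain ⟨z, hz⟩ := D.surj x hx
    have hz0 : z ≠ 0 := by
      rintro rfl
      rw [map_zero] at hz
      exact hx0 hz.symm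
    exact ⟨D.u z, ⟨_, hux hz0⟩, by rw [D.hu z hz0, hz]⟩
  · rintro g ⟨φ, hφ⟩
    have hlift := D.lift_mul (D.lift_inv hw) hφ
    have hwi : φw⁻¹ (S.F o p) = p := by
      show φw.symm (S.F o p) = p
      rw [Equiv.symm_apply_eq, hwp]
    rcases S.F_surj (S.F o p) (φ p) with h | h | ⟨x, hx, h⟩
    · left
      refine ⟨_, hlift, ?_⟩
      rw [Equiv.Perm.mul_apply, h, hwi]
    · left
      have hl2 := D.lift_mul (D.lift_one_E) hlift
      rw [one_mul] at hl2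
      refine ⟨_, hl2, ?_⟩
      rw [Equiv.Perm.mul_apply, Equiv.Perm.mul_apply, h, D.lift_E (D.lift_inv hw) hz0, hwi, hEE]
    · right
      refine ⟨D.u x, D.star_u hx, _, D.lift_mul (D.lift_inv (hux hx)) hφ, ?_⟩
      rw [Equiv.Perm.mul_apply, ← h]
      exact (S.F x * S.F o).symm_apply_apply p
  · rintro j k hj hk ⟨φ, hφ, hp⟩
    obtain ⟨x, hx, rfl⟩ := hsa j hj
    obtain ⟨y, hy, rfl⟩ := hsa k hk
    have h1 := D.lift_mul (hux hy) hφ
    rw [mul_inv_cancel_left] at h1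
    rcases D.lift_uniq h3 hbig h1 (hux hx) p with h | h
    · left
      rw [Equiv.Perm.mul_apply, Equiv.Perm.mul_apply, Equiv.Perm.mul_apply, hp] at h
      rw [S.F_inj _ hx hy h]
    · right
      rw [Equiv.Perm.mul_apply, Equiv.Perm.mul_apply, Equiv.Perm.mul_apply, hp,
        ← S.e3_Fneg h3 hbig hy] at h
      rw [S.F_inj _ hx (neg_ne_zero.2 hy) h, D.u_neg hy]
  · rintro j hj ⟨φ, hφ, hp⟩
    obtain ⟨x, hx, rfl⟩ := hsa j hj
    have h1 := D.lift_mul hw hφ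
    rw [mul_inv_cancel_left] at h1
    rcases D.lift_uniq h3 hbig h1 (hux hx) p with h | h
    · rw [Equiv.Perm.mul_apply, Equiv.Perm.mul_apply, hp, hwp] at h
      exact S.F_ne _ hx h
    · rw [Equiv.Perm.mul_apply, Equiv.Perm.mul_apply, hp, hwp] at h
      exact S.F_ne_E _ hx h
  · refine ⟨_, D.lift_mul (D.lift_inv hw) (D.lift_star hw ho huo), ?_⟩
    have hwi : φw⁻¹ (S.F o p) = p := by
      show φw.symm (S.F o p) = p
      rw [Equiv.symm_apply_eq, hwp]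
    rw [Equiv.Perm.mul_apply, Equiv.Perm.mul_apply, Equiv.Perm.mul_apply, hwi, hwi]
  · refine ⟨1, ?_, rfl⟩
    intro z z' hz hz' c
    have : z' = z := by
      apply D.e_inj
      rw [hz']; simp
    rw [this]; rfl
  · intro s hs
    obtain ⟨z, hz⟩ := D.surj s hs
    obtain ⟨t, ht, ht1, ht2⟩ := hbig z
    refine ⟨D.e t, D.star_e t, fun h => ht (D.inj t h), fun h => ht1 (D.e_inj (h.trans hz.symm)),
      fun h => ht2 (D.e_inj ?_)⟩
    rw [h, map_neg, hz]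

end Rep

end Pool.Agent.I6
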