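import Pool.Agent.Lib_MP_f98417_co.Final
import Pool.Agent.Lib_MP_f98417_coJ.Coord
import Pool.Agent.Lib_MP_f98417_coJ.Centroid
import Pool.Agent.Lib_MP_f98417_coJ.Lift

set_option autoImplicit false

namespace Pool.Agent.I6

open Configuration

/-- algebraic part of (A) -/
theorem Alg.centroid_field {M A : Type} [AddGroup M] [Nonempty A] (S : Alg M A)
    (hbig : ∀ y : M, ∃ t : M, t ≠ 0 ∧ t ≠ y ∧ t ≠ -y)
    {K V : Type} [Field K] [AddCommGroup V] [Module K V] (J : HuaSystem K V) (e : M ≃+ V)
    (hn : ∀ b z : M, b ≠ 0 → z ≠ 0 → b ≠ z →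
      e (S.n b z) = J.inv (J.inv (e z - e b) + J.inv (e b)) - e b) (c : K) :
    c = 0 ∨ c = 1 ∨ c = -1 := by
  have hab : ∀ x y : M, x + y = y + x := by
    intro x y
    apply e.injective
    rw [map_add, map_add, add_comm]
  let inst : AddCommGroup M := { ‹AddGroup M› with add_comm := hab }
  obtain ⟨b, hb, -, -⟩ := hbig 0
  obtain ⟨b', hb', hbb', -⟩ := hbig b
  have h3 := S.abelian_three hab ⟨b, b', hb, hb', hbb'.symm⟩
  by_cases hc : c = 0
  · exact Or.inl hc
  right
  have e0 : ∀ {z : M}, z ≠ 0 → e z ≠ 0 := fun hz h => hz (e.map_eq_zero_iff.1 h)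
  have hn' : ∀ b z : M, b ≠ 0 → z ≠ 0 → e (S.n b z) = -(J.U (e b) (J.inv (e z))) := by
    intro b z hb hz
    by_cases hbz : b = z
    · rw [← hbz, S.n_self hb, map_neg, J.U_inv _ (e0 hb)]
    · rw [hn b z hb hz hbz, J.hua (e b) (e z) (e0 hb) (e0 hz) (fun h => hbz (e.injective h))]
      abel
  let sc : V ≃+ V :=
    { toFun := fun x => c • x
      invFun := fun x => c⁻¹ • x
      left_inv := fun x => by
        show c⁻¹ • c • x = x
        rw [smul_smul, inv_mul_cancel₀ hc, one_smul]
      right_inv := fun x => by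
        show c • c⁻¹ • x = x
        rw [smul_smul, mul_inv_cancel₀ hc, one_smul]
      map_add' := fun x y => smul_add c x y }
  let lam : M ≃+ M := (e.trans sc).trans e.symm
  have hlam : ∀ z, e (lam z) = c • e z := fun z => e.apply_symm_apply _
  have hlam' : ∀ z, e (lam.symm z) = c⁻¹ • e z := fun z => e.apply_symm_apply _
  have hl : ∀ b z : M, b ≠ 0 → z ≠ 0 → S.n b (lam z) = lam.symm (S.n b z) := by
    intro b z hb hz
    have hz' : lam z ≠ 0 := fun h => hz (lam.map_eq_zero_iff.1 h)
    apply e.injective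
    rw [hlam', hn' b _ hb hz', hn' b z hb hz, hlam, J.inv_smul c _ hc (e0 hz), J.U_smul, smul_neg]
  rcases S.centroid_pt h3 hbig lam hl hb with h | h
  · left
    have h1 := congrArg e h
    rw [hlam] at h1
    have h2 : (c - 1) • e b = 0 := by rw [sub_smul, one_smul, h1, sub_self]
    rcases smul_eq_zero.1 h2 with h4 | h4
    · exact sub_eq_zero.1 h4
    · exact absurd h4 (e0 hb)
  · right
    have h1 := congrArg e h
    rw [hlam, map_neg] at h1
    have h2 : (c + 1) • e b = 0 := by rw [add_smul, one_smul, h1]; exact neg_add_cancel _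
    rcases smul_eq_zero.1 h2 with h4 | h4
    · exact eq_neg_of_add_eq_zero_left h4
    · exact absurd h4 (e0 hb)

/-- algebraic part of (B) -/
theorem Alg.no_herm {M A : Type} [AddGroup M] [Nonempty A] (S : Alg M A)
    (hbig : ∀ y : M, ∃ t : M, t ≠ 0 ∧ t ≠ y ∧ t ≠ -y)
    {R : Type} [Ring R] [StarRing R] (hred : ∀ x : R, x * x = 0 → x = 0)
    (inv : selfAdjoint R → selfAdjoint R) (hinv : ∀ x : selfAdjoint R, x ≠ 0 → (x : R) * inv x = 1)
    (e : M ≃+ selfAdjoint R)
    (hn : ∀ b z : M, b ≠ 0 → z ≠ 0 → b ≠ z →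
      e (S.n b z) = inv (inv (e z - e b) + inv (e b)) - e b) : False := by
  have hab : ∀ x y : M, x + y = y + x := by
    intro x y
    apply e.injective
    rw [map_add, map_add, add_comm]
  let inst : AddCommGroup M := { ‹AddGroup M› with add_comm := hab }
  obtain ⟨b, hb, -, -⟩ := hbig 0
  obtain ⟨b', hb', hbb', -⟩ := hbig b
  have h3 := S.abelian_three hab ⟨b, b', hb, hb', hbb'.symm⟩
  have e0 : ∀ {z : M}, z ≠ 0 → e z ≠ 0 := fun hz h => hz (e.map_eq_zero_iff.1 h)
  have sa : ∀ x : selfAdjoint R, star (x : R) = x := fun x => x.2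
  have hinv' : ∀ x : selfAdjoint R, x ≠ 0 → (inv x : R) * x = 1 := by
    intro x hx
    have h1 := congrArg star (hinv x hx)
    rw [star_mul, sa, sa, star_one] at h1
    exact h1
  let u : M → Rˣ := fun z => by
    classical
    exact if h : z = 0 then 1 else
      ⟨(e z : R), (inv (e z) : R), hinv _ (e0 h), hinv' _ (e0 h)⟩
  have hu : ∀ z, z ≠ 0 → (u z : R) = e z := by
    intro z hz
    simp only [u, dif_neg hz]
  have hui : ∀ z, z ≠ 0 → (((u z)⁻¹ : Rˣ) : R) = inv (e z) := by
    intro z hz
    simp only [u, dif_neg hz]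
    rfl
  have hval : ∀ z, z ≠ 0 → (inv (e z) : R) * (e z : R) = 1 := fun z hz => hinv' _ (e0 hz)
  refine Rep.false_of (S := S) (R := R)
    { e := (selfAdjoint R).subtype.comp e.toAddMonoidHom
      inj := ?_
      star_e := fun z => sa (e z)
      surj := ?_
      u := u
      hu := hu
      hn := ?_
      red := hred } h3 hbig
  · intro z hz
    have : e z = 0 := Subtype.ext hz
    exact e.map_eq_zero_iff.1 this
  · intro r hr
    obtain ⟨z, hz⟩ := e.surjective ⟨r, hr⟩
    exact ⟨z, congrArg Subtype.val hz⟩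
  · intro b z hb hz
    show ((e (S.n b z) : selfAdjoint R) : R) = -((e b : R) * (((u z)⁻¹ : Rˣ) : R) * (e b : R))
    by_cases hbz : b = z
    · rw [← hbz, S.n_self hb, map_neg, hui b hb]
      rw [hinv _ (e0 hb), one_mul]
      rfl
    · -- Hua's identity
      rw [hn b z hb hz hbz, hui z hz]
      set x := e b with hx
      set y := e z with hy
      have hx0 : x ≠ 0 := e0 hb
      have hy0 : y ≠ 0 := e0 hz
      have hyx : y - x ≠ 0 := by
        intro h
        exact hbz (e.injective (sub_eq_zero.1 h)).symm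
      set p := inv (y - x) with hp
      set q := inv x with hq
      have hp1 : ((y : R) - x) * p = 1 := hinv _ hyx
      have hp2 : (p : R) * (y - x) = 1 := hinv' _ hyx
      have hq1 : (x : R) * q = 1 := hinv _ hx0
      have hq2 : (q : R) * x = 1 := hinv' _ hx0
      have hy1 : (y : R) * inv y = 1 := hinv _ hy0
      have hy2 : (inv y : R) * y = 1 := hinv' _ hy0
      -- (p + q) * (x - x y⁻¹ x) = 1
      have k1 : ((p : R) + q) * (x - x * inv y * x) = 1 := by
        have s1 : (p : R) * x = p * y - 1 := by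
          have : (p : R) * x = p * y - p * (y - x) := by noncomm_ring
          rw [this, hp2]
        have s2 : ((p : R) + q) * (x - x * inv y * x)
            = (p * x) + q * x - (p * x) * inv y * x - (q * x) * inv y * x := by noncomm_ring
        rw [s2, s1, hq2]
        have s3 : ((p : R) * y - 1) * inv y * x = p * (y * inv y) * x - inv y * x := by
          noncomm_ring
        rw [s3, hy1, mul_one, s1]
        noncomm_ring
      have hpq : p + q ≠ 0 := by
        intro h
        have h5 : (p : R) + q = 0 := congrArg Subtype.val h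
        rw [h5, zero_mul] at k1
        apply hx0
        apply Subtype.ext
        show (x : R) = 0
        rw [← mul_one (x : R), ← k1, mul_zero]
      have k2 : (inv (p + q) : R) * ((p : R) + q) = 1 := hinv' _ hpq
      have k3 : (inv (p + q) : R) = x - x * inv y * x := by
        rw [← mul_one (inv (p + q) : R), ← k1, ← mul_assoc, k2, one_mul]
      show (inv (p + q) : R) - (x : R) = _
      rw [k3]
      noncomm_ring

section Plane

variable {P L : Type} [Membership P L] [ProjectivePlane P L] [Infinite P]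
  {Γ : Subgroup (Equiv.Perm P × Equiv.Perm L)} {v : P} {W : L} {σ : P → L}

/-- the coordinates, transported to the system of the plane -/
theorem plane_coord (H : TypeI6 Γ v W σ) {V : Type} [AddCommGroup V] {inv : V → V}
    {pt : Option V → P} (hpt : IsMoufangIso Γ v W σ inv pt)
    (hne : ∀ x, x ≠ 0 → inv x ≠ 0) (hii : ∀ x, x ≠ 0 → inv (inv x) = x) :
    ∃ (M A : Type) (_ : AddGroup M) (_ : Nonempty A) (S : Alg M A) (e : M ≃+ V),
      (∀ y : M, ∃ t : M, t ≠ 0 ∧ t ≠ y ∧ t ≠ -y) ∧
      (∀ b z : M, b ≠ 0 → z ≠ 0 → b ≠ z →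
        e (S.n b z) = inv (inv (e z - e b) + inv (e b)) - e b) := by
  letI := actQ H
  letI := actX H
  let S := toSys H
  let pt' : Option V → Xs (P := P) W v := fun j => ⟨pt j, (hpt.range (pt j)).2 ⟨j, rfl⟩⟩
  have C : SC S inv pt' :=
    { inj := fun i j h => hpt.inj (congrArg Subtype.val h)
      surj := fun x => by
        obtain ⟨j, hj⟩ := (hpt.range x.1).1 x.2
        exact ⟨j, Subtype.ext hj⟩
      inf := fun γ hγ => by
        obtain ⟨a, ha⟩ := hpt.root_inf γ hγ
        exact ⟨a, fun j => Subtype.ext (ha j)⟩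
      zero := fun γ hγ => by
        obtain ⟨a, ha⟩ := hpt.root_zero γ hγ
        exact ⟨a, fun j => Subtype.ext (ha j)⟩ }
  have how := C.how
  let e : S.Rt (pt' none) ≃+ V :=
    AddEquiv.ofBijective C.iso ⟨by
      rw [injective_iff_map_eq_zero]
      exact fun z hz => C.co_inj hz, C.co_surj⟩
  refine ⟨S.Rt (pt' none), S.Fib (pt' none), inferInstance, ⟨⟨S.T S.pt (pt' none), S.pr_T _ _⟩⟩,
    S.toAlg how, e, ?_, ?_⟩
  · intro y
    obtain ⟨y1, hy1, hy1F⟩ := exists_Xfin (P := P) W
      {v, (pt' none).1, (pt' (some 0)).1, (S.g y • pt' (some 0)).1, (S.g (-y) • pt' (some 0)).1}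
      (by simp)
    simp only [Set.mem_insert_iff, Set.mem_singleton_iff, not_or] at hy1F
    obtain ⟨u, hu, huo⟩ := S.U_trans (pt' none) (pt' (some 0)) ⟨y1, hy1, hy1F.1⟩ how
      (fun h => hy1F.2.1 (congrArg Subtype.val h))
    refine ⟨S.pack u hu, ?_, ?_, ?_⟩
    · intro h
      have h1 : u = 1 := by rw [← S.g_pack u hu, h, S.g_zero]
      rw [h1, one_smul] at huo
      exact hy1F.2.2.1 (congrArg Subtype.val huo).symm
    · intro h
      have h1 : u = S.g y := by rw [← S.g_pack u hu, h]
      rw [h1] at huo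
      exact hy1F.2.2.2.1 (congrArg Subtype.val huo).symm
    · intro h
      have h1 : u = S.g (-y) := by rw [← S.g_pack u hu, h]
      rw [h1] at huo
      exact hy1F.2.2.2.2 (congrArg Subtype.val huo).symm
  · intro b z hb hz hbz
    exact C.co_na hne hii hb hz hbz

/-- (A) -/
theorem plane_field (H : TypeI6 Γ v W σ) {K V : Type} [Field K] [AddCommGroup V] [Module K V]
    (J : HuaSystem K V) (pt : Option V → P) (hpt : IsMoufangIso Γ v W σ J.inv pt) (c : K) :
    c = 0 ∨ c = 1 ∨ c = -1 := by
  obtain ⟨M, A, i1, i2, S, e, hbig, hn⟩ := plane_coord H hpt J.inv_ne J.inv_inv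
  exact S.centroid_field hbig J e hn c

/-- (B) -/
theorem plane_herm (H : TypeI6 Γ v W σ) {R : Type} [Ring R] [StarRing R]
    (hred : ∀ x : R, x * x = 0 → x = 0) (inv : selfAdjoint R → selfAdjoint R)
    (hinv : ∀ x : selfAdjoint R, x ≠ 0 → (x : R) * inv x = 1)
    (pt : Option (selfAdjoint R) → P) : ¬ IsMoufangIso Γ v W σ inv pt := by
  intro hpt
  have sa : ∀ x : selfAdjoint R, star (x : R) = x := fun x => x.2
  have hinv' : ∀ x : selfAdjoint R, x ≠ 0 → (inv x : R) * x = 1 := by
    intro x hx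
    have h1 := congrArg star (hinv x hx)
    rw [star_mul, sa, sa, star_one] at h1
    exact h1
  have hne : ∀ x : selfAdjoint R, x ≠ 0 → inv x ≠ 0 := by
    intro x hx h
    have h1 := hinv x hx
    rw [h] at h1
    apply hx
    apply Subtype.ext
    show (x : R) = 0
    rw [← mul_one (x : R), ← h1]
    simp
  have hii : ∀ x : selfAdjoint R, x ≠ 0 → inv (inv x) = x := by
    intro x hx
    apply Subtype.ext
    have h1 := hinv _ (hne x hx)
    have h2 := hinv x hx
    rw [← one_mul ((inv (inv x) : selfAdjoint R) : R), ← h2, mul_assoc, h1, mul_one]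
  obtain ⟨M, A, i1, i2, S, e, hbig, hn⟩ := plane_coord H hpt hne hii
  exact S.no_herm hbig hred inv hinv e hn

end Plane

end Pool.Agent.I6
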